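import Pool.Agent.NBT.StmtsF
import Pool.Agent.Helper67_NBT.DMC

/-!
# NBT squad (MP_e54c4c_gt), row BTF: Theorem BT
-/

set_option autoImplicit false

open Matrix Filter Topology

namespace Pool.Agent.NBT.H13

open Pool.Agent.PFS Pool.Agent.PFJ

open Classical in
/-- the number of pairs of indices separated by the eigenvalues -/
noncomputable def sep {q K : ℕ} (lam : Fin q → Fin K → ℝ) : ℕ :=
  (Finset.univ.filter fun p : Fin K × Fin K => ∃ j, lam j p.1 ≠ lam j p.2).card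

theorem sep_le {q K : ℕ} (lam : Fin q → Fin K → ℝ) :
    sep lam ≤ Fintype.card (Fin K × Fin K) := by
  unfold sep
  exact Finset.card_le_univ _

theorem sep_lt {q K : ℕ} (lam : Fin q → Fin K → ℝ) (nu : Fin K → ℝ) (k r : Fin K)
    (h1 : ∀ j, lam j k = lam j r) (h2 : nu k ≠ nu r) :
    sep lam < sep (Fin.snoc (α := fun _ => Fin K → ℝ) lam nu) := by
  classical
  unfold sep
  apply Finset.card_lt_card
  rw [Finset.ssubset_iff_of_subset]
  · refine ⟨(k, r), ?_, ?_⟩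
    · rw [Finset.mem_filter]
      refine ⟨Finset.mem_univ _, Fin.last q, ?_⟩
      rw [Fin.snoc_last]
      exact h2
    · rw [Finset.mem_filter]
      rintro ⟨-, j, hj⟩
      exact hj (h1 j)
  · intro p hp
    rw [Finset.mem_filter] at hp ⊢
    obtain ⟨-, j, hj⟩ := hp
    refine ⟨Finset.mem_univ _, j.castSucc, ?_⟩
    rw [Fin.snoc_castSucc]
    exact hj

theorem step (hTBE : TbeStmt) (hFMS : FmsStmt) (hCLS : ClsStmt)
    (hSIG : SigStmt) (hPZB : PzbStmt) (hLVL : LvlStmt) (hCOC : CocStmt)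
    (n : ℕ) (C : Set (V n)) (Γ : Subgroup (GL (Fin n) ℝ)) (hCC : CC C Γ) (k : ℕ) (hk : 2 ≤ k)
    (hmax : MaxCard C Γ (k + 1)) (hN : NoBT C Γ (k + 1)) (q : ℕ) (α : Fin q → GL (Fin n) ℝ)
    (lam : Fin q → Fin (k + 1) → ℝ) (hα : ∀ j, α j ∈ Γ) (hex : ∃ w, FxF C Γ α lam w) :
    (∃ w : Fin (k + 1) → V n, IsPES C Γ w ∧ Concl C Γ k w) ∨
    ∃ (q' : ℕ) (α' : Fin q' → GL (Fin n) ℝ) (lam' : Fin q' → Fin (k + 1) → ℝ),
      (∀ j, α' j ∈ Γ) ∧ (∃ w, FxF C Γ α' lam' w) ∧ sep lam < sep lam' := by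
  have hFAM := hFMS n C Γ (k + 1) hCC q α lam hα
  obtain ⟨w0, hw0⟩ := hex
  obtain ⟨T, c, hTB, hM, hTF, hexT, -⟩ := hTBE n C Γ _ (k + 1) hCC (by omega) hmax _ hFAM w0
    (fun _ => 0) hw0 (fun I => ⟨H67.comb w0 I, H67.comb_ib hCC hw0.1 I, Nat.zero_le _⟩)
  have hbox : ∀ w, T w → ∀ i j : Fin (k + 1), 3 ≤ c {i, j} →
      ∃ L : Submodule ℝ (V n), IB C w {i, j} L ∧ 3 ≤ Module.finrank ℝ L := by
    intro w hw i j h
    exact ⟨_, hTB.box w hw {i, j}, by rw [hTB.dim w hw]; exact h⟩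
  have hNT : NoTri c := by
    intro i j l hij hjl hil h1 h2
    by_contra h3
    obtain ⟨w, hw⟩ := hexT
    exact hN w (hTB.pes w hw) i j l ⟨hij, hjl, hil, hbox w hw i j h1, hbox w hw j l h2,
      hbox w hw i l (by omega)⟩
  obtain ⟨a, ε, hPot⟩ := hLVL n C Γ _ (k + 1) T c hTB hM hexT hNT
  by_cases hinj : ∀ i j, i ≠ j → a i ≠ a j
  · left
    obtain ⟨w, hw⟩ := hexT
    exact ⟨w, hTB.pes w hw, hPZB n C Γ _ k T c hTB a hinj w hw
      (hCOC n C Γ _ (k + 1) T c hTB a ε hPot w hw)⟩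
  · right
    push Not at hinj
    obtain ⟨k', r', hkr, hak⟩ := hinj
    obtain ⟨w', σ, nu, hw', hσ, hσw, hsep⟩ := hSIG n C Γ (k + 1) q α lam T c hα hTB hTF hexT a ε
      hPot ⟨k', r', hkr, hak⟩
    refine ⟨q + 1, Fin.snoc (α := fun _ => GL (Fin n) ℝ) α σ,
      Fin.snoc (α := fun _ => Fin (k + 1) → ℝ) lam nu, ?_, ⟨w', hw'.1, ?_⟩, ?_⟩
    · intro j
      refine Fin.lastCases ?_ (fun j => ?_) j
      · rw [Fin.snoc_last]; exact hσ.1
      · rw [Fin.snoc_castSucc]; exact hα j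
    · intro j i
      refine Fin.lastCases ?_ (fun j => ?_) j
      · rw [Fin.snoc_last, Fin.snoc_last]; exact hσw i
      · rw [Fin.snoc_castSucc, Fin.snoc_castSucc]; exact hw'.2 j i
    · exact sep_lt lam nu k' r'
        (hCLS n C Γ (k + 1) q α lam T c hα hTB hTF k' r' (hPot.two k' r' hkr hak).2)
        (hsep k' r' hkr hak)

/-- **Row BTF.** -/
theorem btf (hTBE : TbeStmt) (hFMS : FmsStmt) (hCLS : ClsStmt)
    (hSIG : SigStmt) (hPZB : PzbStmt) (hLVL : LvlStmt) (hCOC : CocStmt) : BtfStmt := by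
  intro n C Γ hCC k hk hmax hex hN
  have main : ∀ N : ℕ, ∀ (q : ℕ) (α : Fin q → GL (Fin n) ℝ) (lam : Fin q → Fin (k + 1) → ℝ),
      (∀ j, α j ∈ Γ) → (∃ w, FxF C Γ α lam w) →
      Fintype.card (Fin (k + 1) × Fin (k + 1)) ≤ sep lam + N →
      ∃ w : Fin (k + 1) → V n, IsPES C Γ w ∧ Concl C Γ k w := by
    intro N
    induction N with
    | zero =>
      intro q α lam hα hw hle
      rcases step hTBE hFMS hCLS hSIG hPZB hLVL hCOC n C Γ hCC k hk hmax hN q α lam hα hw with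
        h | ⟨q', α', lam', -, -, hlt⟩
      · exact h
      · have := sep_le lam'
        omega
    | succ N ih =>
      intro q α lam hα hw hle
      rcases step hTBE hFMS hCLS hSIG hPZB hLVL hCOC n C Γ hCC k hk hmax hN q α lam hα hw with
        h | ⟨q', α', lam', h1, h2, hlt⟩
      · exact h
      · exact ih q' α' lam' h1 h2 (by omega)
  obtain ⟨w, hw⟩ := hex
  exact main _ 0 (fun j => j.elim0) (fun j => j.elim0) (fun j => j.elim0)
    ⟨w, hw, fun j => j.elim0⟩ (Nat.le_add_left _ _)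

end Pool.Agent.NBT.H13
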