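import Pool.Agent.NBT.StmtsA

/-!
# NBT squad, row CHE: chain exclusion
-/

set_option autoImplicit false

open Matrix Filter Topology

namespace Pool.Agent.NBT.H13

open Pool.Agent.PFS Pool.Agent.PFJ Pool.Agent.NBT

theorem che (zlx : ZlxStmt) (zpr : ZprStmt) (zma : ZmaStmt) (cht : ChtStmt) : CheStmt := by
  intro n C Γ Γ₀ K T c hT w hw k m j x y hkm hmj hkj hc hx hy hsx hsy
  obtain ⟨φ, g, s, W, P, Q, hφ, hg, hs, hZ⟩ := zlx n C Γ Γ₀ K T c hT w hw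
    ({k, m, j} : Finset (Fin K))ᶜ (fun a : ℕ => (a : ℝ)) tendsto_natCast_atTop_atTop
  have hθ : Tendsto (fun a : ℕ => ((φ a : ℕ) : ℝ)) atTop atTop :=
    tendsto_natCast_atTop_atTop.comp hφ.tendsto_atTop
  have hk : k ∉ ({k, m, j} : Finset (Fin K))ᶜ := by simp
  have hm : m ∉ ({k, m, j} : Finset (Fin K))ᶜ := by simp
  have hj : j ∉ ({k, m, j} : Finset (Fin K))ᶜ := by simp
  obtain ⟨hx', -⟩ := zma n C Γ Γ₀ K T c hT w hw _ _ g s W P Q hθ hg hs hZ k x hx hk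
    ⟨m, hm, hsx⟩
  obtain ⟨hy', hys⟩ := zma n C Γ Γ₀ K T c hT w hw _ _ g s W P Q hθ hg hs hZ m y hy hm
    ⟨j, hj, hsy⟩
  have h3 := (zpr n C Γ Γ₀ K T c hT w hw _ _ g s W P Q hθ hg hs hZ).2.2.1
  rw [compl_compl] at h3
  exact cht n C Γ Γ₀ K T c hT W hZ.tw k m j (P x) (P y) hkm hmj hkj hc hx' hy' (h3 x) (h3 y)
    ((hys j).2 ⟨hsy, hj⟩)

end Pool.Agent.NBT.H13
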