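import Pool.Agent.NBT.StmtsF

/-!
# NBT squad (MP_e54c4c_gt), row CLS: equal eigenvalues along arrows
-/

set_option autoImplicit false

open Matrix Filter Topology

namespace Pool.Agent.NBT.H13

open Pool.Agent.PFS Pool.Agent.PFJ

/-- an eigenvalue on a nonzero element of the closed cone is positive -/
theorem eig_pos {n : ℕ} {C : Set (V n)} {Γ : Subgroup (GL (Fin n) ℝ)} (hCC : CC C Γ)
    {g : GL (Fin n) ℝ} (hg : g ∈ Γ) {x : V n} (hx : x ∈ closure C) (hx0 : x ≠ 0) {l : ℝ}
    (h : act g x = l • x) : 0 < l := by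
  have hne : act g x ≠ 0 := by
    intro h0
    apply hx0
    apply CC.act_injective g
    rw [h0, CC.act_zero]
  have hcl : act g x ∈ closure C := hCC.act_cl hg hx
  rcases lt_trichotomy l 0 with hc | hc | hc
  · exfalso
    apply hne
    apply hCC.salient _ hcl
    rw [h, ← neg_smul]
    exact hCC.cl_smul hx (by linarith)
  · exfalso
    apply hne
    rw [h, hc, zero_smul]
  · exact hc

/-- the vertices of the members are nonzero elements of the closed cone -/
theorem vtx {n K : ℕ} {C : Set (V n)} {Γ : Subgroup (GL (Fin n) ℝ)} (hCC : CC C Γ)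
    {w : Fin K → V n} (hw : IsPES C Γ w) (i : Fin K) : w i ∈ closure C ∧ w i ≠ 0 :=
  ⟨hCC.hul.lamCl _ (hw.2 i), hCC.hul.lamNe _ (hw.2 i)⟩

theorem cls (hTBF : TbfStmt) (hEGV : EgvStmt) (hPIM : PimStmt) : ClsStmt := by
  intro n C Γ K q α lam T c hα hT hF k r harr j
  obtain ⟨w, x, hw, hmv, hrk, p, hp, hne⟩ := harr
  have hCC : CC C Γ := hT.cc
  have hpes : IsPES C Γ w := hT.pes w hw
  have hTB := hTBF n C Γ (Cen Γ α) K T c hT w hw
  obtain ⟨-, -, -, -, -, hmem, -, -, -, -, hstr, -, -⟩ := hTB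
  have hact : ∀ i, act (α j) (w i) = lam j i • w i := fun i => (hF w hw).2 j i
  have hlam : ∀ i, 0 < lam j i := fun i =>
    eig_pos hCC (hα j) (vtx hCC hpes i).1 (vtx hCC hpes i).2 (hact i)
  -- the new vertex
  have hux : IsPES C Γ (Function.update w k x) := hT.pes _ hmv.mem
  have hxcl : x ∈ closure C := by
    have := (vtx hCC hux k).1
    rwa [Function.update_self] at this
  have hactx : act (α j) x = lam j k • x := by
    have := (hF _ hmv.mem).2 j k
    rwa [Function.update_self] at this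
  -- its projection
  have hcom := (hPIM n C Γ (Cen Γ α) K T c hT w hw (α j) (hα j) (lam j) hlam hact).2 {k, r} p hp
  have hq : act (α j) (p x) = lam j k • p x := by
    rw [← hcom x, hactx, map_smul]
  have hqm : p x ∈ BI C w {k, r} := hp.mem x
  have hqcl : p x ∈ closure C := hp.pos x hxcl
  have hkm : w k ∈ BI C w {k, r} := (hmem k {k, r}).2 (by simp)
  have hrm : w r ∈ BI C w {k, r} := (hmem r {k, r}).2 (by simp)
  have hind : Ind2 (p x) (w k) := by
    intro a b hab
    have ha : a = 0 := by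
      by_contra ha
      apply hne (-(a⁻¹ * b))
      have h1 : a • p x = -(b • w k) := eq_neg_of_add_eq_zero_left hab
      calc p x = a⁻¹ • (a • p x) := by rw [smul_smul, inv_mul_cancel₀ ha, one_smul]
        _ = -(a⁻¹ * b) • w k := by rw [h1, smul_neg, smul_smul, neg_smul]
    refine ⟨ha, ?_⟩
    rw [ha, zero_smul, zero_add] at hab
    rcases smul_eq_zero.mp hab with h | h
    · exact h
    · exact absurd h (vtx hCC hpes k).2
  obtain ⟨hu1, hu2, hu3⟩ := hstr k r hrk.symm (p x) hqm (w k) hkm hqcl (vtx hCC hpes k).1 hind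
  obtain ⟨M, -, hM⟩ := hu3 (w r) hrm
  have hf : act (α j) (p x + w k) = lam j k • (p x + w k) := by
    rw [CC.act_add, hq, hact k, smul_add]
  exact (hEGV n C Γ hCC (α j) (hα j) (w r) (p x + w k) M (lam j r) (lam j k)
    (vtx hCC hpes r).1 (vtx hCC hpes r).2 hu2 hM (hact r) hf (hlam r) (hlam k)).symm

end Pool.Agent.NBT.H13
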