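import Pool.Agent.Helper13_NBT.Star2
import Pool.Agent.Helper2_NTW.Fin

/-!
# NBT squad (MP_e54c4c_gt), THEOREM BT*: from the rows to the elementary formulation
-/

set_option autoImplicit false

open Matrix

namespace Pool.Agent.NBT.H13

open Pool.Agent.NTW.H2

/-- `L` is a box of the edge `ij` of the simplex with vertices `v`: it contains the two vertices,
and a vector of `L` is in the closed cone as soon as its sum with the other vertices is -/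
def EdgeBox {n m : ℕ} (C : Set (Fin n → ℝ)) (v : Fin m → (Fin n → ℝ)) (i j : Fin m)
    (L : Submodule ℝ (Fin n → ℝ)) : Prop :=
  v i ∈ L ∧ v j ∈ L ∧ ∀ y ∈ L, y + ∑ l ∈ ({i, j} : Finset (Fin m))ᶜ, v l ∈ closure C →
    y ∈ closure C

/-- two top simplices with the common vertices `v l`, `l ≠ a`, with box triangles at `a`, `b`, `j`,
with common boxes at the edges `ab`, `bj` and boxes of the same dimension at the edge `aj` -/
def AdjacentBoxTriangles {n : ℕ} (C : Set (Fin n → ℝ)) (Γ : Subgroup (GL (Fin n) ℝ))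
    (k : ℕ) : Prop :=
  ∃ (v v' : Fin (k + 1) → (Fin n → ℝ)) (a b j : Fin (k + 1)), a ≠ b ∧ b ≠ j ∧ a ≠ j ∧
    InCore C Γ v ∧ InCore C Γ v' ∧ (∀ l, l ≠ a → v' l = v l) ∧ (∀ t : ℝ, v' a ≠ t • v a) ∧
    ∃ L M M' N : Submodule ℝ (Fin n → ℝ), EdgeBox C v a b L ∧ EdgeBox C v' a b L ∧
      EdgeBox C v b j N ∧ EdgeBox C v' b j N ∧ EdgeBox C v a j M ∧ EdgeBox C v' a j M' ∧
      3 ≤ Module.finrank ℝ L ∧ 3 ≤ Module.finrank ℝ N ∧ 3 ≤ Module.finrank ℝ M ∧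
      Module.finrank ℝ M' = Module.finrank ℝ M

open Pool.Agent.PFS in
theorem edgeBox_iff {n m : ℕ} (C : Set (Fin n → ℝ)) (v : Fin m → (Fin n → ℝ)) (i j : Fin m)
    (L : Submodule ℝ (Fin n → ℝ)) : IB C v {i, j} L ↔ EdgeBox C v i j L := by
  constructor
  · intro h
    exact ⟨h.mem i (by simp), h.mem j (by simp), h.box⟩
  · rintro ⟨h1, h2, h3⟩
    refine ⟨?_, h3⟩
    intro l hl
    simp only [Finset.mem_insert, Finset.mem_singleton] at hl
    rcases hl with rfl | rfl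
    · exact h1
    · exact h2

theorem main' (R : Rows) :
  ∀ (n : ℕ) (C : Set (Fin n → ℝ)) (Γ : Subgroup (GL (Fin n) ℝ)),
    IsOpen C → Convex ℝ C → C.Nonempty → (0 : Fin n → ℝ) ∉ C →
    (∀ x ∈ C, ∀ t : ℝ, 0 < t → t • x ∈ C) →
    (∀ v : Fin n → ℝ, v ∈ closure C → -v ∈ closure C → v = 0) →
    DiscreteTopology Γ →
    (∀ g ∈ Γ, |Matrix.det (g : Matrix (Fin n) (Fin n) ℝ)| = 1 ∧
        ∀ x ∈ C, (g : Matrix (Fin n) (Fin n) ℝ) *ᵥ x ∈ C) →
    (∃ y : Fin n → ℝ, y ∈ C ∧ ∃ t : ℝ, 0 < t ∧ ∃ w ∈ convexHull ℝ (Lam C Γ), y = t • w) →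
    (∃ K : Set (Fin n → ℝ), IsCompact K ∧ K ⊆ C ∧
      ∀ y : Fin n → ℝ, (y ∈ C ∧ ∃ t : ℝ, 0 < t ∧ ∃ w ∈ convexHull ℝ (Lam C Γ), y = t • w) →
        ∃ g ∈ Γ, ∃ t : ℝ, 0 < t ∧ t • ((g : Matrix (Fin n) (Fin n) ℝ) *ᵥ y) ∈ K) →
    (¬ ∃ S : Finset ↥Γ, Subgroup.closure (S : Set ↥Γ) = ⊤ ∧ ∃ δ : ℕ,
        ∀ x y z w : ↥Γ,
          (SimpleGraph.fromRel fun a b : ↥Γ => a⁻¹ * b ∈ S).dist x y
            + (SimpleGraph.fromRel fun a b : ↥Γ => a⁻¹ * b ∈ S).dist z w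
          ≤ max ((SimpleGraph.fromRel fun a b : ↥Γ => a⁻¹ * b ∈ S).dist x z
                  + (SimpleGraph.fromRel fun a b : ↥Γ => a⁻¹ * b ∈ S).dist y w)
                ((SimpleGraph.fromRel fun a b : ↥Γ => a⁻¹ * b ∈ S).dist x w
                  + (SimpleGraph.fromRel fun a b : ↥Γ => a⁻¹ * b ∈ S).dist y z)
            + 2 * δ) →
    ∃ k : ℕ, 2 ≤ k ∧
      (∃ v : Fin (k + 1) → (Fin n → ℝ), InCore C Γ v) ∧
      (∀ (m : ℕ) (w : Fin m → (Fin n → ℝ)), InCore C Γ w → m ≤ k + 1) ∧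
      ((n ≤ k + 3 ∨
        (∀ w : Fin (k + 1) → (Fin n → ℝ), InCore C Γ w → ∀ i j l, i ≠ j → i ≠ l → j ≠ l →
          ¬ (3 ≤ edgeDim C w i j ∧ 3 ≤ edgeDim C w i l ∧ edgeDim C w i l = edgeDim C w j l)) ∨
        ¬ AdjacentBoxTriangles C Γ k) →
        ∃ v : Fin (k + 1) → (Fin n → ℝ), InCore C Γ v ∧ Q1Conclusion C Γ k v) := by
  intro n C Γ h1 h2 h3 h4 h5 h6 h7 h8 h9 h10 hyp
  have h : Pool.Agent.PFS.CC C Γ :=
    { isOpen := h1
      convex := h2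
      nonempty := h3
      zero := h4
      smul := h5
      salient := h6
      disc := h7
      det := fun g hg => (h8 g hg).1
      mem := fun g hg => (h8 g hg).2
      core := h9
      cocompact := by
        obtain ⟨K, hK1, hK2, hK3⟩ := h10
        exact ⟨K, hK1, hK2, fun y hy hy' => hK3 y ⟨hy, hy'⟩⟩ }
  have htri : ∃ w : Fin 3 → (Fin n → ℝ), Pool.Agent.PFS.IsPES C Γ w := by
    by_contra hcon
    exact hyp (Pool.Agent.PFS.H87.hypFinal n C Γ h hcon)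
  obtain ⟨k, hk, hex, hmax⟩ := Pool.Agent.PFS.H73.mxk Pool.Agent.PFS.H60.lin n C Γ h htri
  refine ⟨k, hk, ?_, ?_, ?_⟩
  · obtain ⟨v, hv⟩ := hex
    exact ⟨v, (isPES_iff h v).mp hv⟩
  · intro m w hw
    exact hmax m w ((isPES_iff h w).mpr hw)
  · intro hcase
    have hcase' : n ≤ k + 3 ∨ Pool.Agent.NTW.NIT C Γ (k + 1) ∨ NoABT C Γ (k + 1) := by
      rcases hcase with hn | hnit | habt
      · exact Or.inl hn
      · refine Or.inr (Or.inl ?_)
        intro w hw i j l hij hil hjl h3 h3' heq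
        exact hnit w ((isPES_iff h w).mp hw) i j l hij hil hjl ⟨h3, h3', heq⟩
      · refine Or.inr (Or.inr ?_)
        intro w a b j x hab hbj haj hw hw' hne B1 B2 B2' B3 e1 e1' e2 e2' e3 e3' f1 f2 f22 f3
        apply habt
        refine ⟨w, Function.update w a x, a, b, j, hab, hbj, haj, (isPES_iff h w).mp hw,
          (isPES_iff h _).mp hw', fun l hl => Function.update_of_ne hl _ _, ?_, B1, B2, B2', B3,
          (edgeBox_iff C w a b B1).1 e1, (edgeBox_iff C _ a b B1).1 e1',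
          (edgeBox_iff C w b j B3).1 e3, (edgeBox_iff C _ b j B3).1 e3',
          (edgeBox_iff C w a j B2).1 e2, (edgeBox_iff C _ a j B2').1 e2', f1, f3, f2, f22.symm⟩
        intro t
        rw [Function.update_self]
        exact hne t
    obtain ⟨v, g1, c1, c2, c3, c4, c5⟩ := btf' R n C Γ h k hk hmax hex hcase'
    exact ⟨v, (isPES_iff h v).mp g1,
      ⟨⟨c1, c2, c3⟩, fun m w hw hsub => c4 m w hw.1 hw.2.1 hw.2.2 hsub, c5⟩⟩

end Pool.Agent.NBT.H13
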