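import Pool.Agent.Helper13_NBT.Star3

/-!
# NBT squad (MP_e54c4c_gt), THEOREM BT*: elementary formulation of the dichotomy
-/

set_option autoImplicit false

open Matrix

namespace Pool.Agent.NBT.H13

open Pool.Agent.NTW.H2

/-- the span of the open face of the domain which contains the open edge `ij` -/
def EdgeSpan {n m : ℕ} (C : Set (Fin n → ℝ)) (v : Fin m → (Fin n → ℝ)) (i j : Fin m) :
    Submodule ℝ (Fin n → ℝ) :=
  Submodule.span ℝ (OpenFace C (v i + v j))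

/-- the open edge `ij` lies in an open face of projective dimension at least two whose span is a
box: a vector of the span is in the closed cone as soon as its sum with the other vertices is -/
def BoxEdge {n m : ℕ} (C : Set (Fin n → ℝ)) (v : Fin m → (Fin n → ℝ)) (i j : Fin m) : Prop :=
  3 ≤ Module.finrank ℝ (EdgeSpan C v i j) ∧
    ∀ y ∈ EdgeSpan C v i j, y + ∑ l ∈ ({i, j} : Finset (Fin m))ᶜ, v l ∈ closure C →
      y ∈ closure C

/-- adjacent box triangles -/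
def AdjBoxTri {n : ℕ} (C : Set (Fin n → ℝ)) (Γ : Subgroup (GL (Fin n) ℝ)) (k : ℕ) : Prop :=
  ∃ (v v' v'' : Fin (k + 1) → (Fin n → ℝ)) (a b j : Fin (k + 1)), a ≠ b ∧ b ≠ j ∧ a ≠ j ∧
    InCore C Γ v ∧ InCore C Γ v' ∧ InCore C Γ v'' ∧
    (∀ l, l ≠ a → v' l = v l) ∧ (∀ l, l ≠ b → v'' l = v l) ∧ v'' b = v' a ∧
    (∀ t : ℝ, v' a ≠ t • v a) ∧
    BoxEdge C v a b ∧ BoxEdge C v b j ∧ BoxEdge C v a j ∧
    BoxEdge C v' a b ∧ BoxEdge C v' b j ∧ BoxEdge C v' a j ∧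
    EdgeSpan C v' a b = EdgeSpan C v a b ∧ EdgeSpan C v'' a b = EdgeSpan C v a b ∧
    Module.finrank ℝ (EdgeSpan C v' a j) = Module.finrank ℝ (EdgeSpan C v a j)

theorem span_eq {n m : ℕ} (C : Set (Fin n → ℝ)) (v : Fin m → (Fin n → ℝ)) {i j : Fin m}
    (hij : i ≠ j) : BI C v {i, j} = EdgeSpan C v i j := by
  unfold BI EdgeSpan fS
  rw [Finset.sum_pair hij]
  rfl

theorem boxEdge_of {n m : ℕ} (C : Set (Fin n → ℝ)) (v : Fin m → (Fin n → ℝ)) {i j : Fin m}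
    (hij : i ≠ j) (h3 : 3 ≤ Module.finrank ℝ (BI C v {i, j})) (h : IB C v {i, j} (BI C v {i, j})) :
    BoxEdge C v i j := by
  refine ⟨by rwa [← span_eq C v hij], ?_⟩
  intro y hy hyc
  rw [← span_eq C v hij] at hy
  exact h.box y hy hyc

theorem adj_of_cfg {n : ℕ} {C : Set (Fin n → ℝ)} {Γ : Subgroup (GL (Fin n) ℝ)}
    (h : Pool.Agent.PFS.CC C Γ) {k : ℕ} (hc : Cfg C Γ (k + 1)) : AdjBoxTri C Γ k := by
  obtain ⟨w, a, b, j, x, hab, hbj, haj, hw, hw', hw'', hne, e1, e2, b1, b2, f1, f2, f3, f4⟩ := hc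
  have hbj' : Function.update w a x b = w b := Function.update_of_ne hab.symm _ _
  have hjj' : Function.update w a x j = w j := Function.update_of_ne haj.symm _ _
  have e3 : BI C (Function.update w a x) {b, j} = BI C w {b, j} := by
    rw [span_eq C _ hbj, span_eq C _ hbj]
    unfold EdgeSpan
    rw [hbj', hjj']
  refine ⟨w, Function.update w a x, Function.update w b x, a, b, j, hab, hbj, haj,
    (isPES_iff h w).mp hw, (isPES_iff h _).mp hw', (isPES_iff h _).mp hw'',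
    fun l hl => Function.update_of_ne hl _ _, fun l hl => Function.update_of_ne hl _ _, ?_, ?_,
    boxEdge_of C w hab f1 (b1 _), boxEdge_of C w hbj f3 (b1 _), boxEdge_of C w haj f2 (b1 _),
    boxEdge_of C _ hab (by rw [e1]; exact f1) (b2 _),
    boxEdge_of C _ hbj (by rw [e3]; exact f3) (b2 _),
    boxEdge_of C _ haj (by rw [f4]; exact f2) (b2 _), ?_, ?_, ?_⟩
  · rw [Function.update_self, Function.update_self]
  · intro t
    rw [Function.update_self]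
    exact hne t
  · rw [← span_eq C _ hab, ← span_eq C _ hab, e1]
  · rw [← span_eq C _ hab, ← span_eq C _ hab, e2]
  · rw [← span_eq C _ haj, ← span_eq C _ haj, f4]

theorem main2 (R : Rows) :
  ∀ (n : ℕ) (C : Set (Fin n → ℝ)) (Γ : Subgroup (GL (Fin n) ℝ)),
    IsOpen C → Convex ℝ C → C.Nonempty → (0 : Fin n → ℝ) ∉ C →
    (∀ x ∈ C, ∀ t : ℝ, 0 < t → t • x ∈ C) →
    (∀ v : Fin n → ℝ, v ∈ closure C → -v ∈ closure C → v = 0) →
    DiscreteTopology Γ →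
    (∀ g ∈ Γ, |Matrix.det (g : Matrix (Fin n) (Fin n) ℝ)| = 1 ∧
        ∀ x ∈ C, (g : Matrix (Fin n) (Fin n) ℝ) *ᵥ x ∈ C) →
    (∃ y : Fin n → ℝ, y ∈ C ∧ ∃ t : ℝ, 0 < t ∧ ∃ w ∈ convexHull ℝ (Lam C Γ), y = t • w) →
    (∃ K : Set (Fin n → ℝ), IsCompact K ∧ K ⊆ C ∧
      ∀ y : Fin n → ℝ, (y ∈ C ∧ ∃ t : ℝ, 0 < t ∧ ∃ w ∈ convexHull ℝ (Lam C Γ), y = t • w) →
        ∃ g ∈ Γ, ∃ t : ℝ, 0 < t ∧ t • ((g : Matrix (Fin n) (Fin n) ℝ) *ᵥ y) ∈ K) →
    (¬ ∃ S : Finset ↥Γ, Subgroup.closure (S : Set ↥Γ) = ⊤ ∧ ∃ δ : ℕ,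
        ∀ x y z w : ↥Γ,
          (SimpleGraph.fromRel fun a b : ↥Γ => a⁻¹ * b ∈ S).dist x y
            + (SimpleGraph.fromRel fun a b : ↥Γ => a⁻¹ * b ∈ S).dist z w
          ≤ max ((SimpleGraph.fromRel fun a b : ↥Γ => a⁻¹ * b ∈ S).dist x z
                  + (SimpleGraph.fromRel fun a b : ↥Γ => a⁻¹ * b ∈ S).dist y w)
                ((SimpleGraph.fromRel fun a b : ↥Γ => a⁻¹ * b ∈ S).dist x w
                  + (SimpleGraph.fromRel fun a b : ↥Γ => a⁻¹ * b ∈ S).dist y z)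
            + 2 * δ) →
    ∃ k : ℕ, 2 ≤ k ∧
      (∃ v : Fin (k + 1) → (Fin n → ℝ), InCore C Γ v) ∧
      (∀ (m : ℕ) (w : Fin m → (Fin n → ℝ)), InCore C Γ w → m ≤ k + 1) ∧
      ((∃ v : Fin (k + 1) → (Fin n → ℝ), InCore C Γ v ∧ Q1Conclusion C Γ k v) ∨
        (k + 4 ≤ n ∧ AdjBoxTri C Γ k)) := by
  intro n C Γ h1 h2 h3 h4 h5 h6 h7 h8 h9 h10 hyp
  have h : Pool.Agent.PFS.CC C Γ :=
    { isOpen := h1
      convex := h2
      nonempty := h3
      zero := h4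
      smul := h5
      salient := h6
      disc := h7
      det := fun g hg => (h8 g hg).1
      mem := fun g hg => (h8 g hg).2
      core := h9
      cocompact := by
        obtain ⟨K, hK1, hK2, hK3⟩ := h10
        exact ⟨K, hK1, hK2, fun y hy hy' => hK3 y ⟨hy, hy'⟩⟩ }
  have htri : ∃ w : Fin 3 → (Fin n → ℝ), Pool.Agent.PFS.IsPES C Γ w := by
    by_contra hcon
    exact hyp (Pool.Agent.PFS.H87.hypFinal n C Γ h hcon)
  obtain ⟨k, hk, hex, hmax⟩ := Pool.Agent.PFS.H73.mxk Pool.Agent.PFS.H60.lin n C Γ h htri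
  refine ⟨k, hk, ?_, ?_, ?_⟩
  · obtain ⟨v, hv⟩ := hex
    exact ⟨v, (isPES_iff h v).mp hv⟩
  · intro m w hw
    exact hmax m w ((isPES_iff h w).mpr hw)
  · rcases dich R n C Γ h k hk hmax hex with ⟨v, g1, c1, c2, c3, c4, c5⟩ | ⟨hn, hcfg⟩
    · exact Or.inl ⟨v, (isPES_iff h v).mp g1,
        ⟨⟨c1, c2, c3⟩, fun m w hw hsub => c4 m w hw.1 hw.2.1 hw.2.2 hsub, c5⟩⟩
    · exact Or.inr ⟨hn, adj_of_cfg h hcfg⟩

end Pool.Agent.NBT.H13
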