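import Pool.Agent.NBT.StmtsA

/-!
# NBT squad, row IBF: basic facts on `I`-boxes
-/

set_option autoImplicit false

open Matrix Filter Topology

namespace Pool.Agent.NBT.H13

open Pool.Agent.PFS Pool.Agent.PFJ Pool.Agent.NBT

theorem ibf : IbfStmt := by
  intro n C hP K w hw
  have hcl : ∀ m, w m ∈ closure C := fun m => hw.cl m
  have hfI : ∀ I : Finset (Fin K), fS w I ∈ closure C := fun I => hP.cl_sum fun m _ => hcl m
  have hlin := Pool.Agent.PFS.H60.lin n C hP (Fin K) w hw
  have hsplit : ∀ (I : Finset (Fin K)) (f : Fin K → V n),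
      ∑ m ∈ I, f m + ∑ m ∈ Iᶜ, f m = ∑ m, f m := fun I f => Finset.sum_add_sum_compl I f
  refine ⟨?_, ?_⟩
  · intro I L hL
    have hbox : ∀ v ∈ L, ∀ A : ℝ, 0 < A → v + A • fS w Iᶜ ∈ closure C → v ∈ closure C := by
      intro v hv A hA h
      have h1 := hP.cl_smul h (inv_pos.2 hA).le
      rw [smul_add, smul_smul, inv_mul_cancel₀ hA.ne', one_smul] at h1
      have h2 := hL.box _ (L.smul_mem _ hv) h1
      have h3 := hP.cl_smul h2 hA.le
      rwa [smul_smul, mul_inv_cancel₀ hA.ne', one_smul] at h3
    have hmem : fS w I ∈ L := L.sum_mem fun i hi => hL.mem i hi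
    have hunit : ∀ v ∈ L, ∃ M : ℝ, 0 < M ∧ M • fS w I - v ∈ closure C := by
      intro v hv
      obtain ⟨M, hM, h1⟩ := hP.absorb hw.sum_mem v
      refine ⟨M, hM, hbox _ (L.sub_mem (L.smul_mem _ hmem) hv) M hM ?_⟩
      have e : M • fS w I - v + M • fS w Iᶜ = M • ∑ i, w i - v := by
        rw [← hsplit I w, smul_add]
        unfold fS
        abel
      rw [e]
      exact subset_closure h1
    have hUnt : Unt C L (fS w I) := ⟨hmem, hfI I, hunit⟩
    have h3 : ∀ v ∈ L, ∀ r : Fin K → ℝ, v + ∑ m ∈ Iᶜ, r m • w m ∈ closure C →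
        v ∈ closure C ∧ ∀ m, m ∉ I → 0 ≤ r m := by
      intro v hv r h
      refine ⟨?_, ?_⟩
      · have hAr : ∀ m, r m ≤ 1 + ∑ m, |r m| := by
          intro m
          have h1 := Finset.single_le_sum (f := fun m => |r m|) (fun m _ => abs_nonneg _)
            (Finset.mem_univ m)
          have h2 := le_abs_self (r m)
          linarith
        have hApos : (0 : ℝ) < 1 + ∑ m, |r m| := by
          have : (0 : ℝ) ≤ ∑ m, |r m| := Finset.sum_nonneg fun m _ => abs_nonneg _
          linarith
        set A := 1 + ∑ m, |r m| with hA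
        refine hbox v hv A hApos ?_
        have e : v + A • fS w Iᶜ = (v + ∑ m ∈ Iᶜ, r m • w m) + ∑ m ∈ Iᶜ, (A - r m) • w m := by
          unfold fS
          rw [add_assoc, ← Finset.sum_add_distrib, Finset.smul_sum]
          congr 1
          refine Finset.sum_congr rfl fun m _ => ?_
          rw [← add_smul]
          congr 1
          ring
        rw [e]
        exact hP.cl_add h (hP.cl_sum fun m _ => hP.cl_smul (hcl m) (by linarith [hAr m]))
      · intro m hmI
        obtain ⟨M, hM, h1⟩ := hunit v hv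
        have h2 := hP.cl_add h1 h
        have e : M • fS w I - v + (v + ∑ m ∈ Iᶜ, r m • w m) =
            ∑ m, (if m ∈ I then M else r m) • w m := by
          rw [← hsplit I (fun m => (if m ∈ I then M else r m) • w m)]
          have e1 : ∑ m ∈ I, (if m ∈ I then M else r m) • w m = M • fS w I := by
            unfold fS
            rw [Finset.smul_sum]
            exact Finset.sum_congr rfl fun m hm => by rw [if_pos hm]
          have e2 : ∑ m ∈ Iᶜ, (if m ∈ I then M else r m) • w m = ∑ m ∈ Iᶜ, r m • w m :=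
            Finset.sum_congr rfl fun m hm => by rw [if_neg (Finset.mem_compl.1 hm)]
          rw [e1, e2]
          abel
        rw [e] at h2
        have h4 := nng n C hP (Fin K) w hw _ h2 m
        rw [if_neg hmI] at h4
        exact h4
    refine ⟨hUnt, (Pool.Agent.NTW.H27.fcs n C hP (fS w I) (hfI I)).2.2.2.1 L hUnt, h3, ?_⟩
    intro r hr
    refine ⟨fun i hi => L.smul_mem _ (hL.mem i hi), fun v hv h => (h3 v hv r ?_).1⟩
    exact h
  · intro I
    have him : ∀ v : V n, v ∈ Submodule.span ℝ (w '' (I : Set (Fin K))) →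
        ∃ a : Fin K → ℝ, ∑ i ∈ I, a i • w i = v := by
      intro v hv
      obtain ⟨c, hc⟩ := (Submodule.mem_span_image_finset_iff_exists_fun ℝ).1 hv
      classical
      refine ⟨fun i => if h : i ∈ I then c ⟨i, h⟩ else 0, ?_⟩
      rw [← hc, ← Finset.sum_coe_sort I (fun i => (if h : i ∈ I then c ⟨i, h⟩ else 0) • w i)]
      refine Finset.sum_congr rfl fun i _ => ?_
      rw [dif_pos i.2]
    refine ⟨⟨fun i hi => Submodule.subset_span ⟨i, hi, rfl⟩, ?_⟩, ?_⟩
    · intro v hv h
      obtain ⟨a, rfl⟩ := him v hv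
      have e : ∑ i ∈ I, a i • w i + fS w Iᶜ = ∑ m, (if m ∈ I then a m else 1) • w m := by
        rw [← hsplit I (fun m => (if m ∈ I then a m else 1) • w m)]
        have e1 : ∑ m ∈ I, (if m ∈ I then a m else 1) • w m = ∑ i ∈ I, a i • w i :=
          Finset.sum_congr rfl fun m hm => by rw [if_pos hm]
        have e2 : ∑ m ∈ Iᶜ, (if m ∈ I then a m else 1) • w m = fS w Iᶜ :=
          Finset.sum_congr rfl fun m hm => by rw [if_neg (Finset.mem_compl.1 hm), one_smul]
        rw [e1, e2]
      rw [e] at h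
      refine hP.cl_sum fun i hi => hP.cl_smul (hcl i) ?_
      have h4 := nng n C hP (Fin K) w hw _ h i
      rwa [if_pos hi] at h4
    · have h1 : LinearIndependent ℝ (fun i : I => w i) := hlin.comp _ Subtype.val_injective
      have h2 := finrank_span_eq_card h1
      rw [Fintype.card_coe] at h2
      have h3 : Set.range (fun i : I => w i) = w '' (I : Set (Fin K)) := by
        ext y
        constructor
        · rintro ⟨i, rfl⟩
          exact ⟨i, i.2, rfl⟩
        · rintro ⟨i, hi, rfl⟩
          exact ⟨⟨i, hi⟩, rfl⟩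
      rwa [h3] at h2

end Pool.Agent.NBT.H13
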