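import Pool.Agent.NBT.StmtsF
import Pool.Agent.Helper27_NTW.FCS
import Pool.Agent.Helper13_NBT.CLS

/-!
# NBT squad (MP_e54c4c_gt), row SIG: an element separating all two-element levels
-/

set_option autoImplicit false

open Matrix Filter Topology

namespace Pool.Agent.NBT.H13

open Pool.Agent.PFS Pool.Agent.PFJ

theorem ind2_symm {n : ℕ} {x y : V n} (h : Ind2 x y) : Ind2 y x := by
  intro a b hab
  rw [add_comm] at hab
  exact (h b a hab).symm

theorem ind2_ne {n : ℕ} {x y : V n} (h : Ind2 x y) : x ≠ 0 := by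
  intro h0
  have := (h 1 0 (by rw [h0, smul_zero, zero_smul, add_zero])).1
  exact one_ne_zero this

theorem ind2_of_li {n K : ℕ} {w : Fin K → V n} (h : LinearIndependent ℝ w) {i j : Fin K}
    (hij : i ≠ j) : Ind2 (w i) (w j) := by
  have hinj : Function.Injective ![i, j] := by
    intro a b hab
    fin_cases a <;> fin_cases b
    · rfl
    · exact absurd hab hij
    · exact absurd hab.symm hij
    · rfl
  have h2 := h.comp ![i, j] hinj
  have he : w ∘ ![i, j] = ![w i, w j] := by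
    funext a
    fin_cases a <;> rfl
  rw [he] at h2
  exact fun a b hab => LinearIndependent.pair_iff.1 h2 a b hab

/-- **Row SIG.** -/
theorem sig (hCOC : CocStmt) (hTBF : TbfStmt) (hEGV : EgvStmt) (hPIM : PimStmt)
    (hLVF : LvfStmt) (hCHX : ChxStmt) (hCLS : ClsStmt) : SigStmt := by
  classical
  intro n C Γ K q α lam T c hα hT hF hex a ε hPot hkr
  obtain ⟨w, hw⟩ := hex
  have hCC : CC C Γ := hT.cc
  obtain ⟨τ, hτ, haτ, huniq, hlev, hlevτ⟩ := hLVF K a hPot.lev3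
  have hz : ZoE C (Cen Γ α) T a w := hCOC n C Γ (Cen Γ α) K T c hT a ε hPot w hw
  -- facts for any member of the family
  have hcl : ∀ u : Fin K → V n, T u → ∀ i, u i ∈ closure C := fun u hu i =>
    (vtx hCC (hT.pes u hu) i).1
  have hn0 : ∀ u : Fin K → V n, T u → ∀ i, u i ≠ 0 := fun u hu i =>
    (vtx hCC (hT.pes u hu) i).2
  have hind : ∀ u : Fin K → V n, T u → ∀ i j, i ≠ j → Ind2 (u i) (u j) :=
    fun u hu i j hij => ind2_of_li (Pool.Agent.PFS.H60.lin n C hCC.toPCone (Fin K) u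
      (hT.pes u hu).1) hij
  have hmem : ∀ u : Fin K → V n, T u → ∀ i, u i ∈ BI C u (lev a i) := by
    intro u hu i
    obtain ⟨-, -, -, -, -, h1, -, -, -, -, -, -, -⟩ := hTBF n C Γ (Cen Γ α) K T c hT u hu
    rw [h1 i (lev a i)]
    simp [lev]
  have hmemτ : ∀ u : Fin K → V n, T u → ∀ i, u (τ i) ∈ BI C u (lev a i) := by
    intro u hu i
    rw [← hlevτ i]
    exact hmem u hu (τ i)
  have hstr : ∀ u : Fin K → V n, T u → ∀ i, τ i ≠ i →
      ∀ x ∈ BI C u (lev a i), ∀ y ∈ BI C u (lev a i), x ∈ closure C → y ∈ closure C →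
        Ind2 x y → Unt C (BI C u (lev a i)) (x + y) := by
    intro u hu i hi
    obtain ⟨-, -, -, -, -, -, -, -, -, -, h1, -, -⟩ := hTBF n C Γ (Cen Γ α) K T c hT u hu
    rw [hlev i]
    exact h1 i (τ i) (Ne.symm hi)
  have hnun : ∀ u : Fin K → V n, T u → ∀ i, τ i ≠ i →
      ¬ Unt C (BI C u (lev a i)) (u i) ∧ ¬ Unt C (BI C u (lev a i)) (u (τ i)) := by
    intro u hu i hi
    obtain ⟨-, h1, -, -, -, h2, -, -, -, -, -, -, -⟩ := hTBF n C Γ (Cen Γ α) K T c hT u hu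
    have key : ∀ b b' : Fin K, b ≠ b' → u b' ∈ BI C u (lev a i) →
        ¬ Unt C (BI C u (lev a i)) (u b) := by
      intro b b' hbb hb' hU
      obtain ⟨M, -, hM⟩ := hU.2.2 (u b') hb'
      have h3 : u b' ∈ BI C u {b} := h1 {b} (u b') (hcl u hu b') M (by
        simpa [fS] using hM)
      rw [h2 b' {b}] at h3
      exact hbb (Finset.mem_singleton.1 h3).symm
    exact ⟨key i (τ i) (Ne.symm hi) (hmemτ u hu i), key (τ i) i hi (hmem u hu i)⟩
  have hsingle : ∀ u : Fin K → V n, T u → ∀ i, τ i = i → ∀ x ∈ BI C u (lev a i),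
      ∃ κ : ℝ, x = κ • u i := by
    intro u hu i hi x hx
    obtain ⟨-, -, -, -, -, -, -, h1, -, -, -, -, -⟩ := hTBF n C Γ (Cen Γ α) K T c hT u hu
    rw [hlev i, hi, Finset.pair_eq_singleton] at hx
    exact h1 i x hx
  have hfs : ∀ u : Fin K → V n, ∀ i, τ i ≠ i → fS u (lev a i) = u i + u (τ i) := by
    intro u i hi
    rw [hlev i, fS, Finset.sum_pair (Ne.symm hi)]
  -- the coefficients
  obtain ⟨r, hr⟩ : ∃ r : ℕ → Fin K → ℝ, r = fun (m : ℕ) i =>
      if i < τ i then Real.exp (m : ℝ) else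
        if τ i < i then (Real.exp (m : ℝ))⁻¹ else 1 := ⟨_, rfl⟩
  have hrpos : ∀ m i, 0 < r m i := by
    intro m i
    rw [hr]
    dsimp only
    split_ifs
    · exact Real.exp_pos _
    · exact inv_pos.2 (Real.exp_pos _)
    · exact one_pos
  have hr0 : ∀ m i, i < τ i → r m i = Real.exp (m : ℝ) := by
    intro m i hi
    rw [hr]
    dsimp only
    rw [if_pos hi]
  have hr1 : ∀ m i, i < τ i → r m (τ i) = (Real.exp (m : ℝ))⁻¹ := by
    intro m i hi
    rw [hr]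
    dsimp only
    rw [hτ i, if_neg (not_lt.2 hi.le), if_pos hi]
  obtain ⟨φ, g, s, v, hφ, hg, hs, hv, hlim, himg, hBv⟩ := hz r hrpos
  have hgΓ : ∀ m, g m ∈ Γ := fun m => (hg m).1
  have he : Tendsto (fun m => Real.exp (φ m : ℝ)) atTop atTop :=
    Real.tendsto_exp_atTop.comp (tendsto_natCast_atTop_atTop.comp hφ.tendsto_atTop)
  -- every pair
  have hpair : ∀ i, i < τ i → ∀ᶠ m0 in atTop, ∀ᶠ m in atTop,
      ∃ (y0 y1 : V n) (lm mu : ℝ), y0 ∈ BI C w (lev a i) ∧ y1 ∈ BI C w (lev a i) ∧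
      y0 ∈ closure C ∧ y1 ∈ closure C ∧ Ind2 y0 y1 ∧ 0 < lm ∧ lm < mu ∧
      act ((g m0)⁻¹ * g m) y0 = lm • y0 ∧ act ((g m0)⁻¹ * g m) y1 = mu • y1 := by
    intro i hi
    have hne : τ i ≠ i := ne_of_gt hi
    have hsum : w i + w (τ i) ∈ closure C := hCC.toPCone.cl_add (hcl w hw i) (hcl w hw (τ i))
    have hstr' := hstr v hv i hne
    have hnun' := hnun v hv i hne
    have hM0 := hmem v hv i
    have hM1 := hmemτ v hv i
    rw [hBv i] at hstr' hnun' hM0 hM1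
    refine Pool.Agent.PFJ.H82.bpbF n C Γ hCC (BI C w (lev a i)) (BI C w (lev a i)) (w i)
      (w (τ i)) (v i) (v (τ i)) g s
      (fun m => Real.exp (φ m : ℝ)) (hstr w hw i hne) hstr' ?_ ?_
      (hmem w hw i) (hmemτ w hw i) (hcl w hw i) (hcl w hw (τ i)) (hind w hw i (τ i) hne.symm)
      (hnun w hw i hne).1 (hnun w hw i hne).2
      hM0 hM1 (hcl v hv i) (hcl v hv (τ i)) (hind v hv i (τ i) hne.symm)
      hnun'.1 hnun'.2
      hgΓ hs (fun m => Real.exp_pos _) he (fun m => himg m i) ?_ ?_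
    · rw [BI, hfs w i hne]
    · rw [BI, hfs w i hne]
      exact (Pool.Agent.NTW.H27.fcs n C hCC.toPCone _ hsum).2.2.1
    · refine (hlim i).congr fun m => ?_
      rw [hr0 (φ m) i hi]
    · refine (hlim (τ i)).congr fun m => ?_
      rw [hr1 (φ m) i hi]
  have hall : ∀ᶠ m0 in atTop, ∀ i, i < τ i → ∀ᶠ m in atTop,
      ∃ (y0 y1 : V n) (lm mu : ℝ), y0 ∈ BI C w (lev a i) ∧ y1 ∈ BI C w (lev a i) ∧
      y0 ∈ closure C ∧ y1 ∈ closure C ∧ Ind2 y0 y1 ∧ 0 < lm ∧ lm < mu ∧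
      act ((g m0)⁻¹ * g m) y0 = lm • y0 ∧ act ((g m0)⁻¹ * g m) y1 = mu • y1 := by
    rw [eventually_all]
    intro i
    by_cases hi : i < τ i
    · filter_upwards [hpair i hi] with m0 hm0 _
      exact hm0
    · exact Eventually.of_forall fun m0 h' => absurd h' hi
  obtain ⟨m0, hm0⟩ := hall.exists
  have hall2 : ∀ᶠ m in atTop, ∀ i, i < τ i →
      ∃ (y0 y1 : V n) (lm mu : ℝ), y0 ∈ BI C w (lev a i) ∧ y1 ∈ BI C w (lev a i) ∧
      y0 ∈ closure C ∧ y1 ∈ closure C ∧ Ind2 y0 y1 ∧ 0 < lm ∧ lm < mu ∧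
      act ((g m0)⁻¹ * g m) y0 = lm • y0 ∧ act ((g m0)⁻¹ * g m) y1 = mu • y1 := by
    rw [eventually_all]
    intro i
    by_cases hi : i < τ i
    · filter_upwards [hm0 i hi] with m hm _
      exact hm
    · exact Eventually.of_forall fun m h' => absurd h' hi
  obtain ⟨m, hm⟩ := hall2.exists
  obtain ⟨σ, hσ⟩ : ∃ σ : GL (Fin n) ℝ, σ = (g m0)⁻¹ * g m := ⟨_, rfl⟩
  rw [← hσ] at hm
  have hσCen : σ ∈ Cen Γ α := by
    rw [hσ]; exact (Cen Γ α).mul_mem ((Cen Γ α).inv_mem (hg m0)) (hg m)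
  have hσΓ : σ ∈ Γ := hσCen.1
  have hσact : ∀ y : V n, act (g m0) (act σ y) = act (g m) y := by
    intro y
    rw [← CC.act_mul, hσ]
    congr 2
    group
  have hmapL : ∀ i, ∀ y ∈ BI C w (lev a i), act σ y ∈ BI C w (lev a i) := by
    intro i y hy
    have h1 : act (g m) y ∈ BI C w (lev a i) := by
      rw [← himg m i]
      exact mem_img.2 ⟨y, hy, rfl⟩
    rw [← himg m0 i] at h1
    obtain ⟨z, hz, hze⟩ := mem_img.1 h1
    rw [← hσact y] at hze
    rwa [← CC.act_injective (g m0) hze]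
  -- single vertices
  have hsing : ∀ i, ∃ κ : ℝ, τ i = i → 0 < κ ∧ act σ (w i) = κ • w i := by
    intro i
    by_cases hi : τ i = i
    · obtain ⟨κ, hκ⟩ := hsingle w hw i hi _ (hmapL i _ (hmem w hw i))
      exact ⟨κ, fun _ => ⟨eig_pos hCC hσΓ (hcl w hw i) (hn0 w hw i) hκ, hκ⟩⟩
    · exact ⟨1, fun h => absurd h hi⟩
  choose κ hκ using hsing
  have hex : ∀ i, ∃ (y0 y1 : V n) (lm mu : ℝ), i < τ i → y0 ∈ BI C w (lev a i) ∧
      y1 ∈ BI C w (lev a i) ∧
      y0 ∈ closure C ∧ y1 ∈ closure C ∧ Ind2 y0 y1 ∧ 0 < lm ∧ lm < mu ∧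
      act σ y0 = lm • y0 ∧ act σ y1 = mu • y1 := by
    intro i
    by_cases hi : i < τ i
    · obtain ⟨y0, y1, lm, mu, h⟩ := hm i hi
      exact ⟨y0, y1, lm, mu, fun _ => h⟩
    · exact ⟨0, 0, 0, 0, fun h => absurd h hi⟩
  choose y0 y1 lm mu hy using hex
  have hnu : ∀ i, i < τ i → ¬ Unt C (BI C w (lev a i)) (y0 i) ∧
      ¬ Unt C (BI C w (lev a i)) (y1 i) := by
    intro i hi
    obtain ⟨a1, a2, a3, a4, a5, a6, a7, a8, a9⟩ := hy i hi
    obtain ⟨-, b1, b2⟩ := Pool.Agent.PFJ.H76e.ei2 n C Γ hCC (BI C w (lev a i))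
      (hstr w hw i (ne_of_gt hi)) σ hσΓ
      (y0 i) (y1 i) (lm i) (mu i) a1 a2 a3 a4 a5 a6 a7 a8 a9
    exact ⟨b1, b2⟩
  -- the elements `α j`
  have hact : ∀ j i, act (α j) (w i) = lam j i • w i := fun j i => (hF w hw).2 j i
  have hlam : ∀ j i, 0 < lam j i := fun j i =>
    eig_pos hCC (hα j) (hcl w hw i) (hn0 w hw i) (hact j i)
  have hαB : ∀ j i, ∀ y ∈ BI C w (lev a i), act (α j) y ∈ BI C w (lev a i) := by
    intro j i y hy
    have h1 := (hPIM n C Γ (Cen Γ α) K T c hT w hw (α j) (hα j) (lam j) (hlam j) (hact j)).1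
      (lev a i)
    have h2 : act (α j) y ∈ img (α j) (BI C w (lev a i)) := mem_img.2 ⟨y, hy, rfl⟩
    rwa [h1] at h2
  have hcomm : ∀ j, ∀ y : V n, act σ (act (α j) y) = act (α j) (act σ y) := by
    intro j y
    have h1 : α j * σ = σ * α j := by
      have := (Subgroup.mem_centralizer_iff.1 hσCen.2) (α j) ⟨j, rfl⟩
      exact this
    rw [← CC.act_mul, ← CC.act_mul, h1]
  have hlamτ : ∀ j i, lam j (τ i) = lam j i := by
    intro j i
    by_cases hi : τ i = i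
    · rw [hi]
    · exact (hCLS n C Γ K q α lam T c hα hT hF i (τ i)
        (hPot.two i (τ i) (Ne.symm hi) (haτ i).symm).2 j).symm
  have hαy : ∀ j i, i < τ i → act (α j) (y0 i) = lam j i • y0 i ∧
      act (α j) (y1 i) = lam j i • y1 i := by
    intro j i hi
    obtain ⟨a1, a2, a3, a4, a5, a6, a7, a8, a9⟩ := hy i hi
    have hne : τ i ≠ i := ne_of_gt hi
    have hEI := (Pool.Agent.PFJ.H76e.ei2 n C Γ hCC (BI C w (lev a i))
      (hstr w hw i hne) σ hσΓ
      (y0 i) (y1 i) (lm i) (mu i) a1 a2 a3 a4 a5 a6 a7 a8 a9).1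
    have hTB := hTBF n C Γ (Cen Γ α) K T c hT w hw
    have hunit : Unt C (BI C w (lev a i)) (fS w (lev a i)) := hTB.1 (lev a i)
    have hfcl : fS w (lev a i) ∈ closure C := hunit.2.1
    have hαf : act (α j) (fS w (lev a i)) = lam j i • fS w (lev a i) := by
      rw [hfs w i hne, CC.act_add, hact j i, hact j (τ i), hlamτ j i, smul_add]
    have key : ∀ y : V n, y ∈ BI C w (lev a i) → y ∈ closure C → y ≠ 0 → ∀ b : ℝ, 0 < b →
        act (α j) y = b • y → b = lam j i := by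
      intro y hyB hycl hy0 b hb hby
      obtain ⟨M, -, hM⟩ := hunit.2.2 y hyB
      exact hEGV n C Γ hCC (α j) (hα j) y (fS w (lev a i)) M b (lam j i) hycl hy0 hfcl hM hby hαf
        hb (hlam j i)
    have hy00 : y0 i ≠ 0 := ind2_ne a5
    have hy10 : y1 i ≠ 0 := ind2_ne (ind2_symm a5)
    have hαne : ∀ y : V n, y ≠ 0 → act (α j) y ≠ 0 := by
      intro y hy h
      apply hy
      apply CC.act_injective (α j)
      rw [h, CC.act_zero]
    constructor
    · have e1 : act σ (act (α j) (y0 i)) = lm i • act (α j) (y0 i) := by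
        rw [hcomm j, a8, CC.act_smul]
      rcases hEI _ (hαB j i _ a1) (hCC.act_cl (hα j) a3) (hαne _ hy00) (lm i) e1 with
        ⟨b, hb, hbe⟩ | ⟨b, hb, hbe⟩
      · rw [hbe, key _ a1 a3 hy00 b hb hbe]
      · exfalso
        have e2 : act σ (act (α j) (y0 i)) = mu i • act (α j) (y0 i) := by
          rw [hbe, CC.act_smul, a9, smul_comm]
        rw [e2] at e1
        have e3 : (mu i - lm i) • act (α j) (y0 i) = 0 := by rw [sub_smul, e1, sub_self]
        rcases smul_eq_zero.mp e3 with h | h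
        · linarith
        · exact hαne _ hy00 h
    · have e1 : act σ (act (α j) (y1 i)) = mu i • act (α j) (y1 i) := by
        rw [hcomm j, a9, CC.act_smul]
      rcases hEI _ (hαB j i _ a2) (hCC.act_cl (hα j) a4) (hαne _ hy10) (mu i) e1 with
        ⟨b, hb, hbe⟩ | ⟨b, hb, hbe⟩
      · exfalso
        have e2 : act σ (act (α j) (y1 i)) = lm i • act (α j) (y1 i) := by
          rw [hbe, CC.act_smul, a8, smul_comm]
        rw [e2] at e1
        have e3 : (mu i - lm i) • act (α j) (y1 i) = 0 := by rw [sub_smul, e1, sub_self]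
        rcases smul_eq_zero.mp e3 with h | h
        · linarith
        · exact hαne _ hy10 h
      · rw [hbe, key _ a2 a4 hy10 b hb hbe]
  -- the new simplex
  obtain ⟨w', hw'⟩ : ∃ w' : Fin K → V n, w' = fun i =>
      if i < τ i then y0 i else if τ i < i then y1 (τ i) else w i := ⟨_, rfl⟩
  obtain ⟨nu, hnudef⟩ : ∃ nu : Fin K → ℝ, nu = fun i =>
      if i < τ i then lm i else if τ i < i then mu (τ i) else κ i := ⟨_, rfl⟩
  have hw'0 : ∀ i, i < τ i → w' i = y0 i ∧ nu i = lm i := by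
    intro i hi
    rw [hw', hnudef]
    dsimp only
    rw [if_pos hi, if_pos hi]
    exact ⟨rfl, rfl⟩
  have hw'1 : ∀ i, τ i < i → w' i = y1 (τ i) ∧ nu i = mu (τ i) := by
    intro i hi
    rw [hw', hnudef]
    dsimp only
    rw [if_neg (not_lt.2 hi.le), if_pos hi, if_neg (not_lt.2 hi.le), if_pos hi]
    exact ⟨rfl, rfl⟩
  have hw's : ∀ i, τ i = i → w' i = w i ∧ nu i = κ i := by
    intro i hi
    have h1 : ¬ i < τ i := by rw [hi]; exact lt_irrefl i
    have h2 : ¬ τ i < i := by rw [hi]; exact lt_irrefl i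
    rw [hw', hnudef]
    dsimp only
    rw [if_neg h1, if_neg h2, if_neg h1, if_neg h2]
    exact ⟨rfl, rfl⟩
  -- the case `τ i < i` is the case `j < τ j` for `j = τ i`
  have hback : ∀ i, τ i < i → τ i < τ (τ i) := by
    intro i hi
    rw [hτ i]
    exact hi
  have hA : ∀ i, w' i ∈ BI C w (lev a i) ∧ w' i ∈ closure C ∧ w' i ≠ 0 ∧
      act σ (w' i) = nu i • w' i ∧ ∀ j, act (α j) (w' i) = lam j i • w' i := by
    intro i
    rcases lt_trichotomy i (τ i) with hi | hi | hi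
    · obtain ⟨a1, a2, a3, a4, a5, a6, a7, a8, a9⟩ := hy i hi
      rw [(hw'0 i hi).1, (hw'0 i hi).2]
      exact ⟨a1, a3, ind2_ne a5, a8, fun j => (hαy j i hi).1⟩
    · rw [(hw's i hi.symm).1, (hw's i hi.symm).2]
      exact ⟨hmem w hw i, hcl w hw i, hn0 w hw i, (hκ i hi.symm).2, fun j => hact j i⟩
    · obtain ⟨a1, a2, a3, a4, a5, a6, a7, a8, a9⟩ := hy (τ i) (hback i hi)
      rw [(hw'1 i hi).1, (hw'1 i hi).2]
      refine ⟨?_, a4, ind2_ne (ind2_symm a5), a9, fun j => ?_⟩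
      · rw [← hlevτ i]
        exact a2
      · rw [(hαy j (τ i) (hback i hi)).2, hlamτ j i]
  have hB : ∀ i, τ i ≠ i → Ind2 (w' i) (w' (τ i)) ∧ ¬ Unt C (BI C w (lev a i)) (w' i) ∧
      nu i ≠ nu (τ i) := by
    intro i hne
    rcases lt_trichotomy i (τ i) with hi | hi | hi
    · obtain ⟨a1, a2, a3, a4, a5, a6, a7, a8, a9⟩ := hy i hi
      have h1 : τ (τ i) < τ i := by rw [hτ i]; exact hi
      rw [(hw'0 i hi).1, (hw'0 i hi).2, (hw'1 (τ i) h1).1, (hw'1 (τ i) h1).2, hτ i]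
      exact ⟨a5, (hnu i hi).1, ne_of_lt a7⟩
    · exact absurd hi.symm hne
    · obtain ⟨a1, a2, a3, a4, a5, a6, a7, a8, a9⟩ := hy (τ i) (hback i hi)
      rw [(hw'1 i hi).1, (hw'1 i hi).2, (hw'0 (τ i) (hback i hi)).1, (hw'0 (τ i) (hback i hi)).2]
      refine ⟨ind2_symm a5, ?_, ne_of_gt a7⟩
      rw [← hlevτ i]
      exact (hnu (τ i) (hback i hi)).2
  have hpes : IsPES C Γ w' := by
    refine hCHX n C Γ (Cen Γ α) K T c hT w hw τ hτ w' (fun i => ?_) (fun i hi => ?_)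
    · rw [← hlev i]
      exact ⟨(hA i).1, (hA i).2.1, (hA i).2.2.1⟩
    · rw [← hlev i]
      exact ⟨(hB i hi).1, (hB i hi).2.1⟩
  refine ⟨w', σ, nu, ⟨hpes, fun j i => (hA i).2.2.2.2 j⟩, hσCen, fun i => (hA i).2.2.2.1, ?_⟩
  intro k r' hkr' hak
  have hr' : r' = τ k := huniq k r' hkr' hak
  rw [hr']
  apply (hB k _).2.2
  rw [← hr']
  exact hkr'.symm

end Pool.Agent.NBT.H13
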