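import Pool.Agent.Helper13_NBT.IBF
import Pool.Agent.Helper64_NBT.IBI
import Pool.Agent.Helper28_NBT.IBL
import Pool.Agent.Helper52_NBT.IZF
import Pool.Agent.Helper65_NBT.CMX
import Pool.Agent.Helper82_NBT.MNX
import Pool.Agent.Helper43_NBT.TBE
import Pool.Agent.Helper38_NBT.TBF
import Pool.Agent.Helper48_NBT.BIN
import Pool.Agent.Helper55_NBT.BIL
import Pool.Agent.Helper80_NBT.ZLX
import Pool.Agent.Helper55_NBT.PJE
import Pool.Agent.Helper17_NBT.PJF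
import Pool.Agent.Helper94_NBT.PJC
import Pool.Agent.Helper81_NBT.MVB
import Pool.Agent.Helper32_NBT.SXN
import Pool.Agent.Helper81_NBT.ZPR
import Pool.Agent.Helper62_NBT.ZUP
import Pool.Agent.Helper95_NBT.ZMA
import Pool.Agent.Helper39_NBT.ZMB
import Pool.Agent.Helper19_NBT.ZMI
import Pool.Agent.Helper16_NBT.NPR
import Pool.Agent.Helper70_NBT.CHT
import Pool.Agent.Helper13_NBT.CHE
import Pool.Agent.Helper27_NBT.SCQ
import Pool.Agent.Helper39_NBT.NRF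
import Pool.Agent.Helper51_NBT.NRS
import Pool.Agent.Helper92_NBT.ZLF
import Pool.Agent.Helper16_NBT.ZLT
import Pool.Agent.Helper38_NBT.SPB
import Pool.Agent.Helper86_NBT.FLA
import Pool.Agent.Helper44_NBT.FLW
import Pool.Agent.Helper42_NBT.LOC
import Pool.Agent.Helper62_NBT.PUR
import Pool.Agent.Helper67_NBT.RGA
import Pool.Agent.Helper80_NBT.RGB
import Pool.Agent.Helper95_NBT.SCA
import Pool.Agent.Helper94_NBT.SCU
import Pool.Agent.Helper49_NBT.SCB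
import Pool.Agent.Helper10_NBT.SCE
import Pool.Agent.Helper62_NBT.SCC
import Pool.Agent.Helper9_NBT.POT
import Pool.Agent.Helper87_NBT.LVL
import Pool.Agent.Helper49_NBT.NRU
import Pool.Agent.Helper44_NBT.NRD
import Pool.Agent.Helper60_NBT.PGH
import Pool.Agent.Helper98_NBT.FNG
import Pool.Agent.Helper49_NBT.RTE
import Pool.Agent.Helper32_NBT.COC
import Pool.Agent.Helper33_NBT.EGV
import Pool.Agent.Helper77_NBT.PIM
import Pool.Agent.Helper41_NBT.LVF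
import Pool.Agent.Helper40_NBT.CHX
import Pool.Agent.Helper32_NBT.FMS
import Pool.Agent.Helper13_NBT.CLS
import Pool.Agent.Helper13_NBT.SIG
import Pool.Agent.Helper41_NBT.PZB
import Pool.Agent.Helper13_NBT.BTF
import Pool.Agent.Helper67_NBT.DMC
import Pool.Agent.Helper13_NBT.Fin

/-!
# NBT squad (MP_e54c4c_gt): all rows of THEOREM BT put together
-/

set_option autoImplicit false

namespace Pool.Agent.NBT.H13.Main

open Pool.Agent.NBT

theorem fIBF : Pool.Agent.NBT.IbfStmt := Pool.Agent.NBT.H13.ibf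

theorem fIBI : Pool.Agent.NBT.IbiStmt := Pool.Agent.NBT.H64.ibi

theorem fIBL : Pool.Agent.NBT.IblStmt := Pool.Agent.NBT.H28.ibl

theorem fIZF : Pool.Agent.NBT.IzfStmt := Pool.Agent.NBT.H52.izf fIBF fIBI fIBL

theorem fCMX : Pool.Agent.NBT.CmxStmt := Pool.Agent.NBT.H65.cmx fIBF fIBI fIBL fIZF

theorem fMNX : Pool.Agent.NBT.MnxStmt := Pool.Agent.NBT.H82.mnx

theorem fTBE : Pool.Agent.NBT.TbeStmt := Pool.Agent.NBT.H43.tbe fCMX fMNX

theorem fTBF : Pool.Agent.NBT.TbfStmt := Pool.Agent.NBT.H38.tbf fIBF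

theorem fBIN : Pool.Agent.NBT.BinStmt := Pool.Agent.NBT.H48.bin fIBI fTBF

theorem fBIL : Pool.Agent.NBT.BilStmt := Pool.Agent.NBT.H55.bil fIBF fIBL

theorem fZLX : Pool.Agent.NBT.ZlxStmt := Pool.Agent.NBT.H80.zlx fTBF fBIN

theorem fPJE : Pool.Agent.NBT.PjeStmt := Pool.Agent.NBT.H55.pje fZLX

theorem fPJF : Pool.Agent.NBT.PjfStmt := Pool.Agent.NBT.H17.pjf fTBF fBIN

theorem fPJC : Pool.Agent.NBT.PjcStmt := Pool.Agent.NBT.H94.pjc fTBF fBIL fPJF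

theorem fMVB : Pool.Agent.NBT.MvbStmt := Pool.Agent.NBT.H81.mvb fTBF fPJE fPJF

theorem fSXN : Pool.Agent.NBT.SxnStmt := Pool.Agent.NBT.H32.sxn fTBF fPJE fPJF fMVB

theorem fZPR : Pool.Agent.NBT.ZprStmt := Pool.Agent.NBT.H81.zpr fTBF

theorem fZUP : Pool.Agent.NBT.ZupStmt := Pool.Agent.NBT.H62.zup fTBF fBIN fZPR

theorem fZMA : Pool.Agent.NBT.ZmaStmt := Pool.Agent.NBT.H95.zma fTBF fPJE fPJF fMVB fZPR fZUP

theorem fZMB : Pool.Agent.NBT.ZmbStmt := Pool.Agent.NBT.H39.zmb fTBF fPJE fPJF fMVB fSXN fZPR fZUP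

theorem fZMI : Pool.Agent.NBT.ZmiStmt := Pool.Agent.NBT.H19.zmi fZLX fSXN fZMA fZMB

theorem fNPR : Pool.Agent.NBT.NprStmt := Pool.Agent.NBT.H16.nprF fTBF fPJE fPJF

theorem fCHT : Pool.Agent.NBT.ChtStmt := Pool.Agent.NBT.H70.cht fTBF fBIN fPJF fNPR

theorem fCHE : Pool.Agent.NBT.CheStmt := Pool.Agent.NBT.H13.che fZLX fZPR fZMA fCHT

theorem fSCQ : Pool.Agent.NBT.ScqStmt := Pool.Agent.NBT.H27.scq

theorem fNRF : Pool.Agent.NBT.NrfStmt := Pool.Agent.NBT.H39.nrfF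

theorem fNRS : Pool.Agent.NBT.NrsStmt := Pool.Agent.NBT.H51.nrs fBIN fSCQ fNRF

theorem fZLF : Pool.Agent.NBT.ZlfStmt := Pool.Agent.NBT.H92.zlf fTBF

theorem fZLT : Pool.Agent.NBT.ZltStmt := Pool.Agent.NBT.H16.zltF

theorem fSPB : Pool.Agent.NBT.SpbStmt := Pool.Agent.NBT.H38.spb fTBF fPJE fPJF

theorem fFLA : Pool.Agent.NBT.FlaStmt := Pool.Agent.NBT.H86.fla fTBF fBIN

theorem fFLW : Pool.Agent.NBT.FlwStmt := Pool.Agent.NBT.H44.flwF fTBF fBIN fPJE fPJF fPJC fZMI fNRF fNRS fZLF fSPB fFLA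

theorem fLOC : Pool.Agent.NBT.LocStmt := Pool.Agent.NBT.H42.locF fTBF fPJE fPJF fZMI fSXN fZLF fZLT fSPB

theorem fPUR : Pool.Agent.NBT.PurStmt := Pool.Agent.NBT.H62.pur fTBF fPJE fPJF fZMI fSXN fZLF fZLT

theorem fRGA : Pool.Agent.NBT.RgaStmt := Pool.Agent.NBT.H67.rga fFLW fLOC fSXN

theorem fRGB : Pool.Agent.NBT.RgbStmt := Pool.Agent.NBT.H80.rgb fTBF fBIN fZMI fSXN fPUR fNRF fZLF

theorem fSCA : Pool.Agent.NBT.ScaStmt := Pool.Agent.NBT.H95.sca fRGA fRGB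

theorem fSCU : Pool.Agent.NBT.ScuStmt := Pool.Agent.NBT.H94.scu fTBF fPJE fNRF

theorem fSCB : Pool.Agent.NBT.ScbStmt := Pool.Agent.NBT.H49.scb fTBF fSXN fFLW fSCU

theorem fSCE : Pool.Agent.NBT.SceStmt := Pool.Agent.NBT.H10.sceF fSXN fPUR fSCB

theorem fSCC : Pool.Agent.NBT.SccStmt := Pool.Agent.NBT.H62.scc fTBF fPJE fSXN fCHE fFLW fLOC fSCA fSCU fSCE

theorem fPOT : Pool.Agent.NBT.PotStmt := Pool.Agent.NBT.H9.pot

theorem fLVL : Pool.Agent.NBT.LvlStmt := Pool.Agent.NBT.H87.lvl fTBF fSXN fRGA fSCC fPOT fNRF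

theorem fNRU : Pool.Agent.NBT.NruStmt := Pool.Agent.NBT.H49.nru fTBF

theorem fNRD : Pool.Agent.NBT.NrdStmt := Pool.Agent.NBT.H44.nrd fTBF fNRU

theorem fPGH : Pool.Agent.NBT.PghStmt := Pool.Agent.NBT.H60.pgh

theorem fFNG : Pool.Agent.NBT.FngStmt := Pool.Agent.NBT.H98.fng

theorem fRTE : Pool.Agent.NBT.RteStmt := Pool.Agent.NBT.H49.rte fBIN fNRU fNRD fPGH fFNG

theorem fCOC : Pool.Agent.NBT.CocStmt := Pool.Agent.NBT.H32.coc fTBF fBIN fRTE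

theorem fEGV : Pool.Agent.NBT.EgvStmt := Pool.Agent.NBT.H33.egv

theorem fPIM : Pool.Agent.NBT.PimStmt := Pool.Agent.NBT.H77.pim fTBF fBIN fPJF

theorem fLVF : Pool.Agent.NBT.LvfStmt := Pool.Agent.NBT.H41.lvf

theorem fCHX : Pool.Agent.NBT.ChxStmt := Pool.Agent.NBT.H40.chx fTBF

theorem fFMS : Pool.Agent.NBT.FmsStmt := Pool.Agent.NBT.H32.fms

theorem fCLS : Pool.Agent.NBT.ClsStmt := Pool.Agent.NBT.H13.cls fTBF fEGV fPIM

theorem fSIG : Pool.Agent.NBT.SigStmt := Pool.Agent.NBT.H13.sig fCOC fTBF fEGV fPIM fLVF fCHX fCLS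

theorem fPZB : Pool.Agent.NBT.PzbStmt := Pool.Agent.NBT.H41.pzb fTBF

theorem fBTF : Pool.Agent.NBT.BtfStmt := Pool.Agent.NBT.H13.btf fTBE fFMS fCLS fSIG fPZB fLVL fCOC

theorem fDMC : Pool.Agent.NBT.DmcStmt := Pool.Agent.NBT.H67.dmc fTBE fTBF fPJE fPJF fFMS

/-- all rows used by THEOREM BT* -/
theorem rows : Pool.Agent.NBT.H13.Rows :=
  { tbe := fTBE
    tbf := fTBF
    bin := fBIN
    pje := fPJE
    pjf := fPJF
    sxn := fSXN
    che := fCHE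
    flw := fFLW
    loc := fLOC
    pur := fPUR
    rga := fRGA
    sca := fSCA
    scu := fSCU
    pot := fPOT
    nrf := fNRF
    coc := fCOC
    fms := fFMS
    cls := fCLS
    sig := fSIG
    pzb := fPZB
    chx := fCHX
    dmc := fDMC }

end Pool.Agent.NBT.H13.Main
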