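import Pool.Agent.NBT.StmtsC
import Pool.Agent.NBT.StmtsF
import Pool.Agent.Helper13_NBT.BTF
import Pool.Agent.Helper13_NBT.SIG

/-!
# NBT squad (MP_e54c4c_gt), THEOREM BT*: no arrow inside a box triangle

The proof of Theorem BT uses the hypothesis `NoTri` only in the following form (`NoAT`): for every
arrow `k → r` of the minimal family and every `j ≠ k, r`, `3 ≤ c {k, j}` implies `c {r, j} ≤ 2`.
The proofs of the rows SCB, SCE, SCC, LVL (helper49, helper10, helper62, helper87) are repeated here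
with this hypothesis.
-/

set_option autoImplicit false

open Matrix Filter Topology

namespace Pool.Agent.NBT.H13

open Pool.Agent.PFS Pool.Agent.PFJ Pool.Agent.NBT

/-- no arrow inside a box triangle -/
def NoAT {n K : ℕ} (C : Set (V n)) (T : (Fin K → V n) → Prop) (c : Finset (Fin K) → ℕ) : Prop :=
  ∀ k r j : Fin K, k ≠ j → r ≠ j → Arr C T k r → 3 ≤ c {k, j} → c {r, j} ≤ 2

/-- SCB with `NoAT` -/
theorem scb' (tbf : TbfStmt) (sxn : SxnStmt) (flw : FlwStmt) (scu : ScuStmt)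
    (n : ℕ) (C : Set (V n)) (Γ Γ₀ : Subgroup (GL (Fin n) ℝ)) (K : ℕ) (T : (Fin K → V n) → Prop)
    (c : Finset (Fin K) → ℕ) (h : TB C Γ Γ₀ T c) (mn : Mnl C Γ Γ₀ T) (nt : NoAT C T c)
    (I Up : Finset (Fin K)) (cmp : Cmp C T I Up) (v : Fin K) (hv : v ∈ I) (j : Fin K)
    (hj : j ∈ I)
    (P : Finset (Fin K)) (w : Fin K → V n) (st : Sta C T I P v j w)
    (hP : ∀ m ∈ P, m ∈ I ∧ m ≠ v ∧ m ≠ j ∧ 3 ≤ c {v, m}) (m : Fin K) (hm : m ∈ I) (hmP : m ∉ P)
    (hmv : m ≠ v) (hmj : m ≠ j) (h3 : 3 ≤ c {v, m}) :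
    ∃ W : Fin K → V n, Sta C T I (insert m P) v j W := by
  obtain ⟨δ, hδ, hscu⟩ := scu n C Γ Γ₀ K T c h I Up cmp
  obtain ⟨W, W', sp, nr, ⟨i, hiS, hiW⟩, surv⟩ := flw n C Γ Γ₀ K T c h mn (insert m Up)
    (cmp.one m hm) δ hδ w st.tw
  obtain ⟨hU, hI⟩ := hscu (insert m Up) W W' (Finset.subset_insert m Up) sp nr
  obtain ⟨-, -, -, -, -, t6, -⟩ := tbf n C Γ Γ₀ K T c h W sp.tw
  have hmS : m ∈ insert m Up := Finset.mem_insert_self m Up
  have him : i = m := by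
    rcases Finset.mem_insert.mp hiS with h1 | h1
    · exact h1
    · exfalso
      apply hiW
      rw [hU i h1]
      exact (t6 i _).mpr hiS
  rw [him] at hiW
  have hWm : W m ∈ BI C W (insert m Up) := (t6 m _).mpr hmS
  have hup : W' = Function.update W m (W' m) := by
    funext l
    by_cases hl : l = m
    · rw [hl, Function.update_self]
    · rw [Function.update_of_ne hl]
      by_cases hlU : l ∈ Up
      · exact hU l hlU
      · refine sp.out l ?_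
        rw [Finset.mem_insert, not_or]
        exact ⟨hl, hlU⟩
  have hMv : Mv T W m (W' m) := by
    refine ⟨?_, ?_⟩
    · rw [← hup]
      exact sp.tw'
    · intro a ha
      apply hiW
      rw [ha]
      exact Submodule.smul_mem _ _ hWm
  have notS : ∀ x ∈ I, x ≠ m → x ∉ insert m Up := by
    intro x hx hxm
    rw [Finset.mem_insert, not_or]
    exact ⟨hxm, cmp.dis x hx⟩
  have hhelp : ∀ r, Sx C W m (W' m) r → r ∈ I := by
    intro r hr
    obtain ⟨-, -, s3⟩ := sxn n C Γ Γ₀ K T c h W sp.tw m (W' m) hMv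
    have e1 := (s3 (insert m (insert m Up)ᶜ) (Finset.mem_insert_self _ _)).mpr (sp.bnd m hmS) r hr
    have e2 := (s3 (I ∪ Up) (Finset.mem_union_left _ hm)).mpr (hI m hm) r hr
    rcases Finset.mem_insert.mp e1 with h1 | h1
    · exact absurd h1 hr.1
    · rw [Finset.mem_compl, Finset.mem_insert, not_or] at h1
      rcases Finset.mem_union.mp e2 with h2 | h2
      · exact h2
      · exact absurd h2 h1.2
  refine ⟨W, sp.tw, ?_, ?_⟩
  · obtain ⟨x, hx, hxr⟩ := st.mv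
    obtain ⟨y, hy, hyr⟩ := surv v x hx (Or.inl ⟨notS v hv (Ne.symm hmv), fun i hi => by
      rw [(hxr i).mp hi]
      exact notS j hj (Ne.symm hmj)⟩)
    exact ⟨y, hy, fun r => (hyr r).trans (hxr r)⟩
  · intro m' hm'
    rcases Finset.mem_insert.mp hm' with h1 | h1
    · rw [h1]
      exact ⟨W' m, hMv, hhelp⟩
    · obtain ⟨hm'I, hm'v, hm'j, h3'⟩ := hP m' h1
      have hne : m' ≠ m := fun e => hmP (e ▸ h1)
      obtain ⟨y, hy, hyr⟩ := st.frc m' h1
      obtain ⟨z, hz, hzr⟩ := surv m' y hy (Or.inl ⟨notS m' hm'I hne, fun r hr => by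
        refine notS r (hyr r hr) ?_
        intro hrm
        rw [hrm] at hr
        have e2 := nt m' m v hm'v hmv ⟨w, y, st.tw, hy, hr⟩ (by rw [Finset.pair_comm]; exact h3')
        rw [Finset.pair_comm] at e2
        omega⟩)
      exact ⟨z, hz, fun r hr => hyr r ((hzr r).mp hr)⟩

/-- SCE with `NoAT` -/
theorem sce' (tbf : TbfStmt) (hSxn : SxnStmt) (flw : FlwStmt) (scu : ScuStmt) (hPur : PurStmt)
    (n : ℕ) (C : Set (V n)) (Γ Γ₀ : Subgroup (GL (Fin n) ℝ)) (K : ℕ) (T : (Fin K → V n) → Prop)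
    (c : Finset (Fin K) → ℕ) (hTB : TB C Γ Γ₀ T c) (hMnl : Mnl C Γ Γ₀ T) (hNo : NoAT C T c)
    (I Up : Finset (Fin K)) (hCmp : Cmp C T I Up) :
    ∃ v ∈ I, ∃ j ∈ I, v ≠ j ∧ 3 ≤ c {v, j} ∧
      ∃ (P : Finset (Fin K)) (w : Fin K → V n), Sta C T I P v j w ∧
        (∀ m ∈ P, m ∈ I ∧ m ≠ v ∧ m ≠ j ∧ 3 ≤ c {v, m}) ∧
        ∀ m ∈ I, m ≠ v → m ≠ j → 3 ≤ c {v, m} → m ∈ P := by
  classical
  obtain ⟨v, hv, j, hj, hvj, w, x, hTw, hMv, hSx⟩ := hCmp.arr
  have h3 : 3 ≤ c {v, j} := (hSxn n C Γ Γ₀ K T c hTB w hTw v x hMv).2.1 j hSx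
  obtain ⟨W, y, hTW, hMvW, hr⟩ := hPur n C Γ Γ₀ K T c hTB w hTw v j x hMv hSx
  refine ⟨v, hv, j, hj, hvj, h3, ?_⟩
  have key : ∀ s : Finset (Fin K), (∀ m ∈ s, m ∈ I ∧ m ≠ v ∧ m ≠ j ∧ 3 ≤ c {v, m}) →
      ∃ w : Fin K → V n, Sta C T I s v j w := by
    intro s
    induction s using Finset.induction_on with
    | empty =>
      intro _
      exact ⟨W, ⟨hTW, ⟨y, hMvW, hr⟩, fun m hm => absurd hm (Finset.notMem_empty m)⟩⟩
    | insert a s has ih =>
      intro hs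
      obtain ⟨w', hw'⟩ := ih (fun m hm => hs m (Finset.mem_insert_of_mem hm))
      obtain ⟨ha1, ha2, ha3, ha4⟩ := hs a (Finset.mem_insert_self a s)
      exact scb' tbf hSxn flw scu n C Γ Γ₀ K T c hTB hMnl hNo I Up hCmp v hv j hj s w' hw'
        (fun m hm => hs m (Finset.mem_insert_of_mem hm)) a ha1 has ha2 ha3 ha4
  obtain ⟨w', hw'⟩ := key (Finset.univ.filter (fun m => m ∈ I ∧ m ≠ v ∧ m ≠ j ∧ 3 ≤ c {v, m}))
    (fun m hm => (Finset.mem_filter.mp hm).2)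
  refine ⟨_, w', hw', fun m hm => (Finset.mem_filter.mp hm).2, ?_⟩
  intro m h1 h2 h3' h4
  exact Finset.mem_filter.mpr ⟨Finset.mem_univ m, h1, h2, h3', h4⟩

/-- SCC with `NoAT` -/
theorem scc' (hTbf : TbfStmt) (hPje : PjeStmt) (hSxn : SxnStmt) (hChe : CheStmt)
    (hFlw : FlwStmt) (hLoc : LocStmt) (hSca : ScaStmt) (hScu : ScuStmt) (hPur : PurStmt)
    (n : ℕ) (C : Set (V n)) (Γ Γ₀ : Subgroup (GL (Fin n) ℝ)) (K : ℕ) (T : (Fin K → V n) → Prop)
    (c : Finset (Fin K) → ℕ) (h : TB C Γ Γ₀ T c) (hM : Mnl C Γ Γ₀ T) (hNT : NoAT C T c)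
    (i j l : Fin K) (hij : i ≠ j) (hjl : j ≠ l) (hil : i ≠ l)
    (Rij : Relation.ReflTransGen (Arr C T) i j) (Rjl : Relation.ReflTransGen (Arr C T) j l)
    (Rli : Relation.ReflTransGen (Arr C T) l i) : False := by
  have hTne : ∃ w, T w := by
    rcases Relation.ReflTransGen.cases_head Rij with h0 | ⟨r, hr, _⟩
    · exact absurd h0 hij
    · obtain ⟨w, x, hw, _⟩ := hr
      exact ⟨w, hw⟩
  obtain ⟨I, Up, hC⟩ := hSca n C Γ Γ₀ K T c h hM hTne i j l hij hjl hil Rij Rjl Rli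
  obtain ⟨v, hvI, j0, hj0I, hvj, hcvj, P, w, hSta, hP1, hP2⟩ :=
    sce' hTbf hSxn hFlw hScu hPur n C Γ Γ₀ K T c h hM hNT I Up hC
  obtain ⟨δ, hδ, hU⟩ := hScu n C Γ Γ₀ K T c h I Up hC
  obtain ⟨S, hS⟩ : ∃ S : Finset (Fin K), S = insert v (insert j0 Up) := ⟨_, rfl⟩
  have hnR : ¬ Rig C T S := by
    rw [hS]
    exact hC.two v hvI j0 hj0I hvj
  have hmS : ∀ r, r ∈ S ↔ r = v ∨ r = j0 ∨ r ∈ Up := by
    intro r
    rw [hS, Finset.mem_insert, Finset.mem_insert]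
  have hvS : v ∈ S := (hmS v).2 (Or.inl rfl)
  have hjS : j0 ∈ S := (hmS j0).2 (Or.inr (Or.inl rfl))
  have hUpS : Up ⊆ S := fun r hr => (hmS r).2 (Or.inr (Or.inr hr))
  obtain ⟨W, W', hSPr, hNr, ⟨i1, hi1S, hi1⟩, hsurv⟩ :=
    hFlw n C Γ Γ₀ K T c h hM S hnR δ hδ w hSta.tw
  obtain ⟨hU1, hU2⟩ := hU S W W' hUpS hSPr hNr
  have hTW : T W := hSPr.tw
  obtain ⟨-, -, -, -, -, t6, -⟩ := hTbf n C Γ Γ₀ K T c h W hTW
  obtain ⟨x, hx, hxj⟩ := hSta.mv
  have hArr : Arr C T v j0 := ⟨w, x, hSta.tw, hx, (hxj j0).2 rfl⟩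
  -- the surviving moves
  have hmv : ∀ m ∈ P, ∃ y, Mv T W m y ∧ ∀ r, Sx C W m y r → r ∉ S := by
    intro m hm
    obtain ⟨hmI, hmv, hmj, hcm⟩ := hP1 m hm
    obtain ⟨y, hy, hyI⟩ := hSta.frc m hm
    have hcmj : c {m, j0} ≤ 2 := by
      rw [Finset.pair_comm]
      exact hNT v j0 m (Ne.symm hmv) (Ne.symm hmj) hArr hcm
    have hmS' : m ∉ S := by
      rw [hmS]
      rintro (h1 | h1 | h1)
      · exact hmv h1
      · exact hmj h1
      · exact hC.dis m hmI h1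
    obtain ⟨-, hs2, -⟩ := hSxn n C Γ Γ₀ K T c h w hSta.tw m y hy
    have hr : ∀ r, Sx C w m y r → r ∉ S := by
      intro r hr
      rw [hmS]
      rintro (h1 | h1 | h1)
      · subst h1
        exact hChe n C Γ Γ₀ K T c h w hSta.tw m r j0 y x hmv hvj hmj hcmj hy hx hr
          ((hxj j0).2 rfl)
      · subst h1
        have h2 := hs2 r hr
        omega
      · exact hC.dis r (hyI r hr) h1
    obtain ⟨y', hy', hyi⟩ := hsurv m y hy (Or.inl ⟨hmS', hr⟩)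
    exact ⟨y', hy', fun r h1 => hr r ((hyi r).1 h1)⟩
  obtain ⟨x', hx', hx'i⟩ : ∃ x', Mv T W v x' ∧ ∀ r, Sx C W v x' r ↔ Sx C w v x r := by
    apply hsurv v x hx
    right
    refine ⟨hvS, fun r hr => ?_⟩
    rw [(hxj r).1 hr]
    exact hjS
  by_cases ha : W' v ∈ BI C W S
  · -- case (b)
    obtain ⟨p, hp⟩ := hPje n C Γ Γ₀ K T c h W hTW S
    have hWv : W' v = W v := by
      rw [← hp.idB _ ha]
      exact hSPr.prj v hvS p hp
    have hi1v : i1 ≠ v := by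
      rintro rfl
      exact hi1 ha
    have hi1U : i1 ∉ Up := by
      intro h1
      apply hi1
      rw [hU1 i1 h1]
      exact (t6 i1 S).2 hi1S
    have hi1j : i1 = j0 := by
      rcases (hmS i1).1 hi1S with h1 | h1 | h1
      · exact absurd h1 hi1v
      · exact h1
      · exact absurd h1 hi1U
    subst hi1j
    have hW' : Function.update W i1 (W' i1) = W' := by
      funext r
      by_cases hr : r = i1
      · subst hr
        rw [Function.update_self]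
      · rw [Function.update_of_ne hr]
        by_cases hrS : r ∈ S
        · rcases (hmS r).1 hrS with h1 | h1 | h1
          · subst h1
            exact hWv.symm
          · exact absurd h1 hr
          · exact (hU1 r h1).symm
        · exact (hSPr.out r hrS).symm
    have hMv : Mv T W i1 (W' i1) := by
      refine ⟨by rw [hW']; exact hSPr.tw', fun a ha' => hi1 ?_⟩
      rw [ha']
      exact Submodule.smul_mem _ _ ((t6 i1 S).2 hi1S)
    obtain ⟨⟨r, hr⟩, hs2, hs3⟩ := hSxn n C Γ Γ₀ K T c h W hTW i1 (W' i1) hMv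
    have hrJ := (hs3 (insert i1 Sᶜ) (Finset.mem_insert_self _ _)).2 (hSPr.bnd i1 hi1S) r hr
    have hri : r ≠ i1 := hr.1
    have hrS : r ∉ S := by
      rcases Finset.mem_insert.1 hrJ with h1 | h1
      · exact absurd h1 hri
      · exact Finset.mem_compl.1 h1
    have hvr : v ≠ r := by
      rintro rfl
      exact hrS hvS
    have hcvr : c {v, r} ≤ 2 := by
      rw [Finset.pair_comm]
      exact hNT i1 r v hvj.symm hvr.symm ⟨W, W' i1, hTW, hMv, hr⟩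
        (by rw [Finset.pair_comm]; exact hcvj)
    exact hChe n C Γ Γ₀ K T c h W hTW v i1 r x' (W' i1) hvj hri.symm hvr hcvr hx' hMv
      ((hx'i i1).2 ((hxj i1).2 rfl)) hr
  · -- case (a)
    obtain ⟨U, y, hTU, hMU, hout, hJ, hsU⟩ :=
      hLoc n C Γ Γ₀ K T c h S W W' hSPr v hvS ha
    obtain ⟨⟨r, hr⟩, hs2, -⟩ := hSxn n C Γ Γ₀ K T c h U hTU v y hMU
    have hrS : r ∉ S := hout r hr
    have hrIU : r ∈ I ∪ Up := hJ (I ∪ Up) (Finset.mem_union_left _ hvI) (hU2 v hvI) r hr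
    have hrI : r ∈ I := by
      rcases Finset.mem_union.1 hrIU with h1 | h1
      · exact h1
      · exact absurd (hUpS h1) hrS
    have hrv : r ≠ v := by
      rintro rfl
      exact hrS hvS
    have hrj : r ≠ j0 := by
      rintro rfl
      exact hrS hjS
    have hcvr : 3 ≤ c {v, r} := hs2 r hr
    obtain ⟨y1, hy1, hy1S⟩ := hmv r (hP2 r hrI hrv hrj hcvr)
    obtain ⟨y2, hy2, hy2i⟩ := hsU r y1 hy1 (Or.inr hrS) (fun r' hr' => Or.inr (hy1S r' hr'))
    obtain ⟨⟨r', hr'⟩, hs2', -⟩ := hSxn n C Γ Γ₀ K T c h U hTU r y2 hy2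
    have hr'S : r' ∉ S := hy1S r' ((hy2i r').1 hr')
    have hvr' : v ≠ r' := by
      rintro rfl
      exact hr'S hvS
    have hcr : c {v, r'} ≤ 2 := by
      rw [Finset.pair_comm]
      exact hNT r r' v hrv hvr'.symm ⟨U, y2, hTU, hy2, hr'⟩
        (by rw [Finset.pair_comm]; exact hcvr)
    exact hChe n C Γ Γ₀ K T c h U hTU v r r' y y2 hrv.symm hr'.1.symm hvr' hcr hMU hy2 hr hr'

/-- LVL with `NoAT` -/
theorem lvl' (hTbf : TbfStmt) (hPje : PjeStmt) (SXN : SxnStmt) (hChe : CheStmt)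
    (hFlw : FlwStmt) (hLoc : LocStmt) (RGA : RgaStmt) (hSca : ScaStmt) (hScu : ScuStmt)
    (hPur : PurStmt) (POT : PotStmt) (NRF : NrfStmt)
    (n : ℕ) (C : Set (V n)) (Γ Γ₀ : Subgroup (GL (Fin n) ℝ)) (K : ℕ) (T : (Fin K → V n) → Prop)
    (c : Finset (Fin K) → ℕ) (h : TB C Γ Γ₀ T c) (hM : Mnl C Γ Γ₀ T) (hne : ∃ w, T w)
    (hN : NoAT C T c) : ∃ (a : Fin K → ℝ) (ε : ℝ), Pot C T c a ε := by
  classical
  obtain ⟨a, ha1, ha2, ha3⟩ := POT K (Arr C T)
    (fun i j l => scc' hTbf hPje SXN hChe hFlw hLoc hSca hScu hPur n C Γ Γ₀ K T c h hM hN i j l)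
  have hrig : ∀ s : ℝ, Rig C T (upp a s) := by
    intro s
    by_contra hcon
    obtain ⟨k, hk, r, hr, hkr⟩ := RGA n C Γ Γ₀ K T c h hM hne (upp a s) hcon
    have h1 := ha1 k r hkr
    have h2 : s ≤ a k := by
      simpa [upp] using hk
    apply hr
    simp only [upp, Finset.mem_filter, Finset.mem_univ, true_and]
    linarith
  have hch : ∀ S : Finset (Fin K), ∃ ε : ℝ, 0 < ε ∧
      (Rig C T S → ∀ w z, T w → T z → Nr C ε w z → BI C w S = BI C z S) := by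
    intro S
    by_cases hS : Rig C T S
    · obtain ⟨ε, hε, hh⟩ := hS
      exact ⟨ε, hε, fun _ => hh⟩
    · exact ⟨1, one_pos, fun hS' => absurd hS' hS⟩
  choose e he0 he using hch
  obtain ⟨S0, -, hS0⟩ := Finset.exists_min_image (Finset.univ : Finset (Finset (Fin K))) e
    ⟨∅, Finset.mem_univ _⟩
  obtain ⟨hmono, -⟩ := NRF n C Γ K h.cc
  refine ⟨a, e S0, he0 S0, ?_, ?_, ha3⟩
  · intro s w z hw hz hnr
    refine he (upp a s) (hrig s) w z hw hz ?_
    refine hmono (e S0) (e (upp a s)) w z (hS0 _ (Finset.mem_univ _)) ?_ hnr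
    have h1 := (h.pes w hw).1.pos (fun _ => (1 : ℝ)) (fun _ => one_pos)
    simp only [one_smul] at h1
    exact subset_closure h1
  · intro k r hkr hkr'
    have hA := ha2 k r hkr hkr'
    refine ⟨?_, hA⟩
    obtain ⟨w, x, hw, hmv, hsx⟩ := hA
    exact (SXN n C Γ Γ₀ K T c h w hw k x hmv).2.1 r hsx

end Pool.Agent.NBT.H13
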