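import Pool.Agent.Helper13_NBT.Star

/-!
# NBT squad (MP_e54c4c_gt), THEOREM BT*: conditions which exclude arrows inside box triangles,
and the assembly
-/

set_option autoImplicit false

open Matrix Filter Topology

namespace Pool.Agent.NBT.H13

open Pool.Agent.PFS Pool.Agent.PFJ Pool.Agent.NBT

/-- no two top simplices `w`, `w' = w[k→x]` with box triangles at `k, r, j`, with the same box of
`k, r`, the same box of `r, j` and boxes of `k, j` of the same dimension -/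
def NoABT {n : ℕ} (C : Set (V n)) (Γ : Subgroup (GL (Fin n) ℝ)) (K : ℕ) : Prop :=
  ∀ (w : Fin K → V n) (k r j : Fin K) (x : V n), k ≠ r → r ≠ j → k ≠ j → IsPES C Γ w →
    IsPES C Γ (Function.update w k x) → (∀ a : ℝ, x ≠ a • w k) →
    ∀ B1 B2 B2' B3 : Submodule ℝ (V n), IB C w {k, r} B1 →
      IB C (Function.update w k x) {k, r} B1 → IB C w {k, j} B2 →
      IB C (Function.update w k x) {k, j} B2' → IB C w {r, j} B3 →
      IB C (Function.update w k x) {r, j} B3 → 3 ≤ Module.finrank ℝ B1 →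
      3 ≤ Module.finrank ℝ B2 → Module.finrank ℝ B2 = Module.finrank ℝ B2' →
      3 ≤ Module.finrank ℝ B3 → False

/-- a vertex is not a unit of the face of an edge -/
theorem nonunit (hTBF : TbfStmt) {n K : ℕ} {C : Set (V n)} {Γ Γ₀ : Subgroup (GL (Fin n) ℝ)}
    {T : (Fin K → V n) → Prop} {c : Finset (Fin K) → ℕ} (hT : TB C Γ Γ₀ T c)
    (u : Fin K → V n) (hu : T u) (I : Finset (Fin K)) (b b' : Fin K) (hbb : b ≠ b')
    (hb' : b' ∈ I) : ¬ Unt C (BI C u I) (u b) := by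
  obtain ⟨-, h1, -, -, -, h2, -, -, -, -, -, -, -⟩ := hTBF n C Γ Γ₀ K T c hT u hu
  intro hU
  obtain ⟨M, -, hM⟩ := hU.2.2 (u b') ((h2 b' I).2 hb')
  have h3 : u b' ∈ BI C u {b} := h1 {b} (u b') (vtx hT.cc (hT.pes u hu) b').1 M (by
    simpa [fS] using hM)
  rw [h2 b' {b}] at h3
  exact hbb (Finset.mem_singleton.1 h3).symm

/-- an arrow and a third index: two adjacent simplices of the family -/
theorem adj (hTBF : TbfStmt) (hBIN : BinStmt) (hSXN : SxnStmt) (hPUR : PurStmt) {n K : ℕ}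
    {C : Set (V n)} {Γ Γ₀ : Subgroup (GL (Fin n) ℝ)}
    {T : (Fin K → V n) → Prop} {c : Finset (Fin K) → ℕ} (hT : TB C Γ Γ₀ T c)
    (k r : Fin K) (harr : Arr C T k r) :
    k ≠ r ∧ 3 ≤ c {k, r} ∧ ∃ (W : Fin K → V n) (y : V n), T W ∧ T (Function.update W k y) ∧
      (∀ a : ℝ, y ≠ a • W k) ∧ y ∈ BI C W {k, r} ∧
      BI C (Function.update W k y) {k, r} = BI C W {k, r} ∧
      ∀ j, k ≠ j → BI C (Function.update W k y) {r, j} = BI C W {r, j} := by
  obtain ⟨w, x, hw, hmv, hsx⟩ := harr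
  have hkr : k ≠ r := hsx.1.symm
  have h3 := (hSXN n C Γ Γ₀ K T c hT w hw k x hmv).2.1 r hsx
  obtain ⟨W, y, hW, hMv, hr⟩ := hPUR n C Γ Γ₀ K T c hT w hw k r x hmv hsx
  have hy : y ∈ BI C W {k, r} := by
    refine ((hSXN n C Γ Γ₀ K T c hT W hW k y hMv).2.2 {k, r} (by simp)).1 ?_
    intro i hi
    rw [(hr i).1 hi]
    simp
  obtain ⟨-, -, b3, b4⟩ := hBIN n C Γ Γ₀ K T c hT W hW
  obtain ⟨-, -, -, -, -, t6, -⟩ := hTBF n C Γ Γ₀ K T c hT W hW
  refine ⟨hkr, h3, W, y, hW, hMv.mem, hMv.ne, hy, ?_, ?_⟩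
  · refine b3 _ hMv.mem {k, r} ?_
    intro i hi
    by_cases hik : i = k
    · rw [hik, Function.update_self]
      exact hy
    · rw [Function.update_of_ne hik]
      exact (t6 i {k, r}).2 hi
  · intro j hj
    refine b4 k y {r, j} ?_
    simp only [Finset.mem_insert, Finset.mem_singleton, not_or]
    exact ⟨hkr, hj⟩

theorem noat_of_noabt (hTBF : TbfStmt) (hBIN : BinStmt) (hSXN : SxnStmt) (hPUR : PurStmt)
    {n K : ℕ} {C : Set (V n)} {Γ Γ₀ : Subgroup (GL (Fin n) ℝ)}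
    {T : (Fin K → V n) → Prop} {c : Finset (Fin K) → ℕ} (hT : TB C Γ Γ₀ T c)
    (hN : NoABT C Γ K) : NoAT C T c := by
  intro k r j hkj hrj harr h3
  by_contra h4
  obtain ⟨hkr, hc, W, y, hW, hW', hne, hy, e1, e2⟩ := adj hTBF hBIN hSXN hPUR hT k r harr
  have i1 := hT.box _ hW' {k, r}
  rw [e1] at i1
  have i3 := hT.box _ hW' {r, j}
  rw [e2 j hkj] at i3
  refine hN W k r j y hkr hrj hkj (hT.pes _ hW) (hT.pes _ hW') hne _ _ _ _
    (hT.box _ hW {k, r}) i1 (hT.box _ hW {k, j}) (hT.box _ hW' {k, j}) (hT.box _ hW {r, j}) i3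
    ?_ ?_ ?_ ?_
  · rw [hT.dim _ hW]; exact hc
  · rw [hT.dim _ hW]; exact h3
  · rw [hT.dim _ hW, hT.dim _ hW']
  · rw [hT.dim _ hW]; omega

theorem noat_of_nobt (hSXN : SxnStmt)
    {n K : ℕ} {C : Set (V n)} {Γ Γ₀ : Subgroup (GL (Fin n) ℝ)}
    {T : (Fin K → V n) → Prop} {c : Finset (Fin K) → ℕ} (hT : TB C Γ Γ₀ T c)
    (hN : NoBT C Γ K) : NoAT C T c := by
  intro k r j hkj hrj harr h3
  by_contra h4
  obtain ⟨w, x, hw, hmv, hsx⟩ := harr
  have hc := (hSXN n C Γ Γ₀ K T c hT w hw k x hmv).2.1 r hsx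
  have hbox : ∀ i i' : Fin K, 3 ≤ c {i, i'} →
      ∃ L : Submodule ℝ (V n), IB C w {i, i'} L ∧ 3 ≤ Module.finrank ℝ L :=
    fun i i' h => ⟨_, hT.box w hw {i, i'}, by rw [hT.dim w hw]; exact h⟩
  exact hN w (hT.pes w hw) k r j ⟨hsx.1.symm, hrj, hkj, hbox k r hc, hbox r j (by omega),
    hbox k j h3⟩

theorem noat_of_nit (hTBF : TbfStmt) (hBIN : BinStmt) (hSXN : SxnStmt) (hPUR : PurStmt)
    (hCHX : ChxStmt)
    {n K : ℕ} {C : Set (V n)} {Γ Γ₀ : Subgroup (GL (Fin n) ℝ)}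
    {T : (Fin K → V n) → Prop} {c : Finset (Fin K) → ℕ} (hT : TB C Γ Γ₀ T c)
    (hN : Pool.Agent.NTW.NIT C Γ K) : NoAT C T c := by
  intro k r j hkj hrj harr h3
  by_contra h4
  obtain ⟨hkr, hc, W, y, hW, hW', hne, hy, e1, e2⟩ := adj hTBF hBIN hSXN hPUR hT k r harr
  have hCC : CC C Γ := hT.cc
  obtain ⟨-, -, -, -, -, t6, -, -, -, -, hstr, -, -⟩ := hTBF n C Γ Γ₀ K T c hT W hW
  have hWk := vtx hCC (hT.pes W hW) k
  have hyv := vtx hCC (hT.pes _ hW') k
  rw [Function.update_self] at hyv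
  have hind : Ind2 (W k) y := by
    intro a b hab
    have hb : b = 0 := by
      by_contra hb
      apply hne (-(b⁻¹ * a))
      have h1 : b • y = -(a • W k) := by
        rw [add_comm] at hab
        exact eq_neg_of_add_eq_zero_left hab
      calc y = b⁻¹ • (b • y) := by rw [smul_smul, inv_mul_cancel₀ hb, one_smul]
        _ = -(b⁻¹ * a) • W k := by rw [h1, smul_neg, smul_smul, neg_smul]
    refine ⟨?_, hb⟩
    rw [hb, zero_smul, add_zero] at hab
    rcases smul_eq_zero.mp hab with h | h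
    · exact h
    · exact absurd h hWk.2
  have hkm : W k ∈ BI C W {k, r} := (t6 k {k, r}).2 (by simp)
  have hnk : ¬ Unt C (BI C W {k, r}) (W k) :=
    nonunit hTBF hT W hW {k, r} k r hkr (by simp)
  have hny : ¬ Unt C (BI C W {k, r}) y := by
    have := nonunit hTBF hT _ hW' {k, r} k r hkr (by simp)
    rwa [e1, Function.update_self] at this
  -- the simplex with the vertices `W k`, `y`
  have hτ : ∀ i, Equiv.swap k r (Equiv.swap k r i) = i := fun i => Equiv.swap_apply_self k r i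
  have hpes : IsPES C Γ (Function.update W r y) := by
    refine hCHX n C Γ Γ₀ K T c hT W hW (Equiv.swap k r) hτ (Function.update W r y) ?_ ?_
    · intro i
      by_cases hir : i = r
      · subst hir
        rw [Function.update_self, Equiv.swap_apply_right, Finset.pair_comm]
        exact ⟨hy, hyv.1, hyv.2⟩
      · rw [Function.update_of_ne hir]
        have := vtx hCC (hT.pes W hW) i
        exact ⟨(t6 i _).2 (by simp), this.1, this.2⟩
    · intro i hi
      by_cases hir : i = r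
      · subst hir
        rw [Function.update_self, Equiv.swap_apply_right, Function.update_of_ne hkr,
          Finset.pair_comm]
        exact ⟨ind2_symm hind, hny⟩
      · by_cases hik : i = k
        · subst hik
          rw [Equiv.swap_apply_left, Function.update_self, Function.update_of_ne hir]
          exact ⟨hind, hnk⟩
        · exact absurd (Equiv.swap_apply_of_ne_of_ne hik hir) hi
  -- the dimensions
  have hsum : fS W {k, r} = W k + W r := Finset.sum_pair hkr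
  have hcl : fS W {k, r} ∈ closure C := by
    rw [hsum]
    exact hCC.toPCone.cl_add hWk.1 (vtx hCC (hT.pes W hW) r).1
  have hU : Unt C (Submodule.span ℝ (Face C (fS W {k, r}))) (W k + y) :=
    hstr k r hkr (W k) hkm y hy hWk.1 hyv.1 hind
  have d1 : Pool.Agent.NTW.Fs C (W k) y = BI C W {k, r} :=
    (Pool.Agent.NTW.H27.fcs n C hCC.toPCone _ hcl).2.2.2.2 _ hU
  have d2 : Pool.Agent.NTW.Fs C (W k) (W j) = BI C W {k, j} := by
    unfold Pool.Agent.NTW.Fs BI fS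
    rw [Finset.sum_pair hkj]
  have d3 : Pool.Agent.NTW.Fs C y (W j) = BI C (Function.update W k y) {k, j} := by
    unfold Pool.Agent.NTW.Fs BI fS
    rw [Finset.sum_pair hkj, Function.update_self, Function.update_of_ne hkj.symm]
  apply hN (Function.update W r y) hpes k r j hkr hkj hrj
  · rw [Function.update_self, Function.update_of_ne hkr, d1, hT.dim _ hW]
    exact hc
  · rw [Function.update_of_ne hkr, Function.update_of_ne hrj.symm, d2, hT.dim _ hW]
    exact h3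
  · rw [Function.update_self, Function.update_of_ne hkr, Function.update_of_ne hrj.symm, d2, d3,
      hT.dim _ hW, hT.dim _ hW']

/-- all rows used by BT* (besides the rows of the present files) -/
structure Rows : Prop where
  tbe : TbeStmt
  tbf : TbfStmt
  bin : BinStmt
  pje : PjeStmt
  pjf : PjfStmt
  sxn : SxnStmt
  che : CheStmt
  flw : FlwStmt
  loc : LocStmt
  pur : PurStmt
  rga : RgaStmt
  sca : ScaStmt
  scu : ScuStmt
  pot : PotStmt
  nrf : NrfStmt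
  coc : CocStmt
  fms : FmsStmt
  cls : ClsStmt
  sig : SigStmt
  pzb : PzbStmt
  chx : ChxStmt
  dmc : DmcStmt

theorem step' (R : Rows)
    (n : ℕ) (C : Set (V n)) (Γ : Subgroup (GL (Fin n) ℝ)) (hCC : CC C Γ) (k : ℕ) (hk : 2 ≤ k)
    (hmax : MaxCard C Γ (k + 1))
    (hN : ∀ (Γ₀ : Subgroup (GL (Fin n) ℝ)) (T : (Fin (k + 1) → V n) → Prop)
      (c : Finset (Fin (k + 1)) → ℕ), TB C Γ Γ₀ T c → NoAT C T c)
    (q : ℕ) (α : Fin q → GL (Fin n) ℝ)
    (lam : Fin q → Fin (k + 1) → ℝ) (hα : ∀ j, α j ∈ Γ) (hex : ∃ w, FxF C Γ α lam w) :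
    (∃ w : Fin (k + 1) → V n, IsPES C Γ w ∧ Concl C Γ k w) ∨
    ∃ (q' : ℕ) (α' : Fin q' → GL (Fin n) ℝ) (lam' : Fin q' → Fin (k + 1) → ℝ),
      (∀ j, α' j ∈ Γ) ∧ (∃ w, FxF C Γ α' lam' w) ∧ sep lam < sep lam' := by
  have hFAM := R.fms n C Γ (k + 1) hCC q α lam hα
  obtain ⟨w0, hw0⟩ := hex
  obtain ⟨T, c, hTB, hM, hTF, hexT, -⟩ := R.tbe n C Γ _ (k + 1) hCC (by omega) hmax _ hFAM w0
    (fun _ => 0) hw0 (fun I => ⟨H67.comb w0 I, H67.comb_ib hCC hw0.1 I, Nat.zero_le _⟩)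
  obtain ⟨a, ε, hPot⟩ := lvl' R.tbf R.pje R.sxn R.che R.flw R.loc R.rga R.sca R.scu R.pur R.pot
    R.nrf n C Γ _ (k + 1) T c hTB hM hexT (hN _ T c hTB)
  by_cases hinj : ∀ i j, i ≠ j → a i ≠ a j
  · left
    obtain ⟨w, hw⟩ := hexT
    exact ⟨w, hTB.pes w hw, R.pzb n C Γ _ k T c hTB a hinj w hw
      (R.coc n C Γ _ (k + 1) T c hTB a ε hPot w hw)⟩
  · right
    push Not at hinj
    obtain ⟨k', r', hkr, hak⟩ := hinj
    obtain ⟨w', σ, nu, hw', hσ, hσw, hsep⟩ := R.sig n C Γ (k + 1) q α lam T c hα hTB hTF hexT a ε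
      hPot ⟨k', r', hkr, hak⟩
    refine ⟨q + 1, Fin.snoc (α := fun _ => GL (Fin n) ℝ) α σ,
      Fin.snoc (α := fun _ => Fin (k + 1) → ℝ) lam nu, ?_, ⟨w', hw'.1, ?_⟩, ?_⟩
    · intro j
      refine Fin.lastCases ?_ (fun j => ?_) j
      · rw [Fin.snoc_last]; exact hσ.1
      · rw [Fin.snoc_castSucc]; exact hα j
    · intro j i
      refine Fin.lastCases ?_ (fun j => ?_) j
      · rw [Fin.snoc_last, Fin.snoc_last]; exact hσw i
      · rw [Fin.snoc_castSucc, Fin.snoc_castSucc]; exact hw'.2 j i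
    · exact sep_lt lam nu k' r'
        (R.cls n C Γ (k + 1) q α lam T c hα hTB hTF k' r' (hPot.two k' r' hkr hak).2)
        (hsep k' r' hkr hak)

/-- **THEOREM BT*.** -/
theorem btf' (R : Rows)
    (n : ℕ) (C : Set (V n)) (Γ : Subgroup (GL (Fin n) ℝ)) (hCC : CC C Γ) (k : ℕ) (hk : 2 ≤ k)
    (hmax : MaxCard C Γ (k + 1)) (hex : ∃ w : Fin (k + 1) → V n, IsPES C Γ w)
    (hN : n ≤ k + 3 ∨ Pool.Agent.NTW.NIT C Γ (k + 1) ∨ NoABT C Γ (k + 1)) :
    ∃ w : Fin (k + 1) → V n, IsPES C Γ w ∧ Concl C Γ k w := by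
  have hNA : ∀ (Γ₀ : Subgroup (GL (Fin n) ℝ)) (T : (Fin (k + 1) → V n) → Prop)
      (c : Finset (Fin (k + 1)) → ℕ), TB C Γ Γ₀ T c → NoAT C T c := by
    intro Γ₀ T c hT
    rcases hN with h | h | h
    · exact noat_of_nobt R.sxn hT (R.dmc n C Γ (k + 1) hCC (by omega) hmax (by omega))
    · exact noat_of_nit R.tbf R.bin R.sxn R.pur R.chx hT h
    · exact noat_of_noabt R.tbf R.bin R.sxn R.pur hT h
  have main : ∀ N : ℕ, ∀ (q : ℕ) (α : Fin q → GL (Fin n) ℝ) (lam : Fin q → Fin (k + 1) → ℝ),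
      (∀ j, α j ∈ Γ) → (∃ w, FxF C Γ α lam w) →
      Fintype.card (Fin (k + 1) × Fin (k + 1)) ≤ sep lam + N →
      ∃ w : Fin (k + 1) → V n, IsPES C Γ w ∧ Concl C Γ k w := by
    intro N
    induction N with
    | zero =>
      intro q α lam hα hw hle
      rcases step' R n C Γ hCC k hk hmax hNA q α lam hα hw with h | ⟨q', α', lam', -, -, hlt⟩
      · exact h
      · have := sep_le lam'
        omega
    | succ N ih =>
      intro q α lam hα hw hle
      rcases step' R n C Γ hCC k hk hmax hNA q α lam hα hw with h | ⟨q', α', lam', h1, h2, hlt⟩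
      · exact h
      · exact ih q' α' lam' h1 h2 (by omega)
  obtain ⟨w, hw⟩ := hex
  exact main _ 0 (fun j => j.elim0) (fun j => j.elim0) (fun j => j.elim0)
    ⟨w, hw, fun j => j.elim0⟩ (Nat.le_add_left _ _)

end Pool.Agent.NBT.H13
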