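import Pool.Agent.Helper13_NBT.Main

/-!
# NBT squad (MP_e54c4c_gt), THEOREM BT*, final form: the dichotomy
-/

set_option autoImplicit false

open Matrix Filter Topology

namespace Pool.Agent.NBT.H13

open Pool.Agent.PFS Pool.Agent.PFJ Pool.Agent.NBT

/-- three top simplices `w`, `w[k→x]`, `w[r→x]`, box triangles at `k, r, j` in the first two, all
boxes are the spans of the open faces of the edges, the edges `kr` of the three simplices have the
same face, the edges `kj` of the first two have faces of the same dimension -/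
def Cfg {n : ℕ} (C : Set (V n)) (Γ : Subgroup (GL (Fin n) ℝ)) (K : ℕ) : Prop :=
  ∃ (w : Fin K → V n) (k r j : Fin K) (x : V n), k ≠ r ∧ r ≠ j ∧ k ≠ j ∧ IsPES C Γ w ∧
    IsPES C Γ (Function.update w k x) ∧ IsPES C Γ (Function.update w r x) ∧
    (∀ a : ℝ, x ≠ a • w k) ∧
    BI C (Function.update w k x) {k, r} = BI C w {k, r} ∧
    BI C (Function.update w r x) {k, r} = BI C w {k, r} ∧
    (∀ I, IB C w I (BI C w I)) ∧
    (∀ I, IB C (Function.update w k x) I (BI C (Function.update w k x) I)) ∧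
    3 ≤ Module.finrank ℝ (BI C w {k, r}) ∧ 3 ≤ Module.finrank ℝ (BI C w {k, j}) ∧
    3 ≤ Module.finrank ℝ (BI C w {r, j}) ∧
    Module.finrank ℝ (BI C (Function.update w k x) {k, j}) = Module.finrank ℝ (BI C w {k, j})

theorem cfg_of_at (hTBF : TbfStmt) (hBIN : BinStmt) (hSXN : SxnStmt) (hPUR : PurStmt)
    (hCHX : ChxStmt)
    {n K : ℕ} {C : Set (V n)} {Γ Γ₀ : Subgroup (GL (Fin n) ℝ)}
    {T : (Fin K → V n) → Prop} {c : Finset (Fin K) → ℕ} (hT : TB C Γ Γ₀ T c)
    (hN : ¬ Cfg C Γ K) : NoAT C T c := by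
  intro k r j hkj hrj harr h3
  by_contra h4
  obtain ⟨hkr, hc, W, y, hW, hW', hne, hy, e1, e2⟩ := adj hTBF hBIN hSXN hPUR hT k r harr
  have hCC : CC C Γ := hT.cc
  obtain ⟨-, -, -, -, -, t6, -, -, -, -, hstr, -, -⟩ := hTBF n C Γ Γ₀ K T c hT W hW
  have hWk := vtx hCC (hT.pes W hW) k
  have hyv := vtx hCC (hT.pes _ hW') k
  rw [Function.update_self] at hyv
  have hind : Ind2 (W k) y := by
    intro a b hab
    have hb : b = 0 := by
      by_contra hb
      apply hne (-(b⁻¹ * a))
      have h1 : b • y = -(a • W k) := by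
        rw [add_comm] at hab
        exact eq_neg_of_add_eq_zero_left hab
      calc y = b⁻¹ • (b • y) := by rw [smul_smul, inv_mul_cancel₀ hb, one_smul]
        _ = -(b⁻¹ * a) • W k := by rw [h1, smul_neg, smul_smul, neg_smul]
    refine ⟨?_, hb⟩
    rw [hb, zero_smul, add_zero] at hab
    rcases smul_eq_zero.mp hab with h | h
    · exact h
    · exact absurd h hWk.2
  have hkm : W k ∈ BI C W {k, r} := (t6 k {k, r}).2 (by simp)
  have hnk : ¬ Unt C (BI C W {k, r}) (W k) :=
    nonunit hTBF hT W hW {k, r} k r hkr (by simp)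
  have hny : ¬ Unt C (BI C W {k, r}) y := by
    have := nonunit hTBF hT _ hW' {k, r} k r hkr (by simp)
    rwa [e1, Function.update_self] at this
  have hτ : ∀ i, Equiv.swap k r (Equiv.swap k r i) = i := fun i => Equiv.swap_apply_self k r i
  have hpes : IsPES C Γ (Function.update W r y) := by
    refine hCHX n C Γ Γ₀ K T c hT W hW (Equiv.swap k r) hτ (Function.update W r y) ?_ ?_
    · intro i
      by_cases hir : i = r
      · subst hir
        rw [Function.update_self, Equiv.swap_apply_right, Finset.pair_comm]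
        exact ⟨hy, hyv.1, hyv.2⟩
      · rw [Function.update_of_ne hir]
        have := vtx hCC (hT.pes W hW) i
        exact ⟨(t6 i _).2 (by simp), this.1, this.2⟩
    · intro i hi
      by_cases hir : i = r
      · subst hir
        rw [Function.update_self, Equiv.swap_apply_right, Function.update_of_ne hkr,
          Finset.pair_comm]
        exact ⟨ind2_symm hind, hny⟩
      · by_cases hik : i = k
        · subst hik
          rw [Equiv.swap_apply_left, Function.update_self, Function.update_of_ne hir]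
          exact ⟨hind, hnk⟩
        · exact absurd (Equiv.swap_apply_of_ne_of_ne hik hir) hi
  have hsum : fS W {k, r} = W k + W r := Finset.sum_pair hkr
  have hcl : fS W {k, r} ∈ closure C := by
    rw [hsum]
    exact hCC.toPCone.cl_add hWk.1 (vtx hCC (hT.pes W hW) r).1
  have hU : Unt C (Submodule.span ℝ (Face C (fS W {k, r}))) (W k + y) :=
    hstr k r hkr (W k) hkm y hy hWk.1 hyv.1 hind
  have d1 : BI C (Function.update W r y) {k, r} = BI C W {k, r} := by
    unfold BI
    have e : fS (Function.update W r y) {k, r} = W k + y := by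
      unfold fS
      rw [Finset.sum_pair hkr, Function.update_self, Function.update_of_ne hkr]
    rw [e]
    exact (Pool.Agent.NTW.H27.fcs n C hCC.toPCone _ hcl).2.2.2.2 _ hU
  apply hN
  refine ⟨W, k, r, j, y, hkr, hrj, hkj, hT.pes _ hW, hT.pes _ hW', hpes, hne, e1, d1,
    fun I => hT.box _ hW I, fun I => hT.box _ hW' I, ?_, ?_, ?_, ?_⟩
  · rw [hT.dim _ hW]; exact hc
  · rw [hT.dim _ hW]; exact h3
  · rw [hT.dim _ hW]; omega
  · rw [hT.dim _ hW, hT.dim _ hW']

/-- **THEOREM BT*** with the condition on arrows. -/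
theorem btfc (R : Rows)
    (n : ℕ) (C : Set (V n)) (Γ : Subgroup (GL (Fin n) ℝ)) (hCC : CC C Γ) (k : ℕ) (hk : 2 ≤ k)
    (hmax : MaxCard C Γ (k + 1)) (hex : ∃ w : Fin (k + 1) → V n, IsPES C Γ w)
    (hNA : ∀ (Γ₀ : Subgroup (GL (Fin n) ℝ)) (T : (Fin (k + 1) → V n) → Prop)
      (c : Finset (Fin (k + 1)) → ℕ), TB C Γ Γ₀ T c → NoAT C T c) :
    ∃ w : Fin (k + 1) → V n, IsPES C Γ w ∧ Concl C Γ k w := by
  have main : ∀ N : ℕ, ∀ (q : ℕ) (α : Fin q → GL (Fin n) ℝ) (lam : Fin q → Fin (k + 1) → ℝ),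
      (∀ j, α j ∈ Γ) → (∃ w, FxF C Γ α lam w) →
      Fintype.card (Fin (k + 1) × Fin (k + 1)) ≤ sep lam + N →
      ∃ w : Fin (k + 1) → V n, IsPES C Γ w ∧ Concl C Γ k w := by
    intro N
    induction N with
    | zero =>
      intro q α lam hα hw hle
      rcases step' R n C Γ hCC k hk hmax hNA q α lam hα hw with h | ⟨q', α', lam', -, -, hlt⟩
      · exact h
      · have := sep_le lam'
        omega
    | succ N ih =>
      intro q α lam hα hw hle
      rcases step' R n C Γ hCC k hk hmax hNA q α lam hα hw with h | ⟨q', α', lam', h1, h2, hlt⟩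
      · exact h
      · exact ih q' α' lam' h1 h2 (by omega)
  obtain ⟨w, hw⟩ := hex
  exact main _ 0 (fun j => j.elim0) (fun j => j.elim0) (fun j => j.elim0)
    ⟨w, hw, fun j => j.elim0⟩ (Nat.le_add_left _ _)

/-- **THEOREM BT***, the dichotomy. -/
theorem dich (R : Rows)
    (n : ℕ) (C : Set (V n)) (Γ : Subgroup (GL (Fin n) ℝ)) (hCC : CC C Γ) (k : ℕ) (hk : 2 ≤ k)
    (hmax : MaxCard C Γ (k + 1)) (hex : ∃ w : Fin (k + 1) → V n, IsPES C Γ w) :
    (∃ w : Fin (k + 1) → V n, IsPES C Γ w ∧ Concl C Γ k w) ∨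
      (k + 4 ≤ n ∧ Cfg C Γ (k + 1)) := by
  by_cases hn : n ≤ k + 3
  · left
    refine btfc R n C Γ hCC k hk hmax hex fun Γ₀ T c hT => ?_
    exact noat_of_nobt R.sxn hT (R.dmc n C Γ (k + 1) hCC (by omega) hmax (by omega))
  · by_cases hcfg : Cfg C Γ (k + 1)
    · exact Or.inr ⟨by omega, hcfg⟩
    · left
      refine btfc R n C Γ hCC k hk hmax hex fun Γ₀ T c hT => ?_
      exact cfg_of_at R.tbf R.bin R.sxn R.pur R.chx hT hcfg

end Pool.Agent.NBT.H13
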